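import Mathlib

/-!
A cell decomposition, by type, of the set of submodules above a diagonal lattice.
-/

namespace Pool.Agent.P.MP_8598be_al

open Finset
open scoped Classical

variable {R : Type} [CommRing R] {ι : Type} [Fintype ι] [LinearOrder ι]

/-- The diagonal lattice. -/
def D (ϖ : R) (ν : ι → ℕ) : Submodule R (ι → R) :=
  Submodule.pi Set.univ fun j => Ideal.span {ϖ ^ ν j}

omit [Fintype ι] [LinearOrder ι] in
lemma mem_D {ϖ : R} {ν : ι → ℕ} {x : ι → R} : x ∈ D ϖ ν ↔ ∀ j, ϖ ^ ν j ∣ x j := by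
  simp [D, Submodule.mem_pi, Ideal.mem_span_singleton]

omit [Fintype ι] [LinearOrder ι] in
lemma D_anti {ϖ : R} {ν ν' : ι → ℕ} (h : ν ≤ ν') : D ϖ ν' ≤ D ϖ ν := fun _ hx =>
  mem_D.2 fun j => (pow_dvd_pow ϖ (h j)).trans (mem_D.1 hx j)

omit [Fintype ι] in
lemma single_mem_D {ϖ : R} {ν : ι → ℕ} {j : ι} {a : R} (h : ϖ ^ ν j ∣ a) :
    Pi.single j a ∈ D ϖ ν := mem_D.2 fun l => by
  by_cases hl : l = j
  · subst hl; simpa using h
  · simp [Pi.single_eq_of_ne hl]

/-- The indicator function of a finite set. -/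
def ind (S : Finset ι) : ι → ℕ := fun j => if j ∈ S then 1 else 0

/-- The order used for choosing pivots. -/
def prec (μ : ι → ℕ) (l j : ι) : Prop := μ l < μ j ∨ (μ l = μ j ∧ l < j)

/-- The contribution of a pair of coordinates to the dimension of a cell. -/
noncomputable def eps (μ ν : ι → ℕ) (j l : ι) : ℕ :=
  min (ν l - ν j) (μ j - ν j) - if prec μ l j ∧ ν j < ν l then 1 else 0

/-- The dimension of a cell. -/
noncomputable def ex (μ ν : ι → ℕ) : ℕ := ∑ j, ∑ l, eps μ ν j l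

/-- Automorphisms that do not move the coordinates outside the support of `μ`. -/
def Inv (μ : ι → ℕ) (g : (ι → R) ≃ₗ[R] (ι → R)) : Prop :=
  ∀ j, μ j = 0 → g (Pi.single j 1) = Pi.single j 1 ∧ ∀ x, g x j = x j

/-- The cell decomposition of the submodules between `D μ` and `D (ind S)`. -/
def Cell (ϖ : R) (q : ℕ) (μ : ι → ℕ) (S : Finset ι) : Prop :=
  ∃ τ : Submodule R (ι → R) → ι → ℕ,
    (∀ Λ, D ϖ μ ≤ Λ → Λ ≤ D ϖ (ind S) → ind S ≤ τ Λ ∧ τ Λ ≤ μ ∧
      ∃ g, Inv μ g ∧ ∀ x, x ∈ Λ ↔ g x ∈ D ϖ (τ Λ)) ∧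
    ∀ ν, ind S ≤ ν → ν ≤ μ →
      Nat.card {Λ // (D ϖ μ ≤ Λ ∧ Λ ≤ D ϖ (ind S)) ∧ τ Λ = ν} = q ^ ex μ ν

lemma card_of_fibers {A B : Type} (f : A → B) {m k : ℕ} (hm : m ≠ 0) (hk : k ≠ 0)
    (hB : Nat.card B = m) (hf : ∀ b, Nat.card {a // f a = b} = k) : Nat.card A = m * k := by
  have : Finite B := Nat.finite_of_card_ne_zero (hB ▸ hm)
  have : ∀ b, Finite {a // f a = b} := fun b => Nat.finite_of_card_ne_zero (hf b ▸ hk)
  have := Fintype.ofFinite B
  rw [← Nat.card_congr (Equiv.sigmaFiberEquiv f), Nat.card_sigma]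
  simp [hf, ← hB]

variable [IsDomain R] [IsDiscreteValuationRing R] {ϖ : R} {q : ℕ}

lemma index_span_pow (hϖ : Irreducible ϖ) (hq : Nat.card (R ⧸ Ideal.span {ϖ}) = q) (k : ℕ) :
    (Ideal.span {ϖ ^ k}).toAddSubgroup.index = q ^ k := by
  have : (Ideal.span {ϖ}).IsPrime := (Ideal.span_singleton_prime hϖ.ne_zero).2 hϖ.prime
  have h3 := cardQuot_pow_of_prime (P := Ideal.span {ϖ})
    (Ideal.span_singleton_eq_bot.not.2 hϖ.ne_zero) (i := k)
  rw [Ideal.span_singleton_pow, Submodule.cardQuot_apply (Ideal.span {ϖ}), hq] at h3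
  exact h3

omit [LinearOrder ι] in
lemma index_D (hϖ : Irreducible ϖ) (hq : Nat.card (R ⧸ Ideal.span {ϖ}) = q) (ν : ι → ℕ) :
    (D ϖ ν).toAddSubgroup.index = q ^ ∑ j, ν j := by
  have h1 : (D ϖ ν).toAddSubgroup =
      AddSubgroup.pi Set.univ fun j => (Ideal.span {ϖ ^ ν j}).toAddSubgroup := by
    ext x; simp [D, Submodule.mem_pi, AddSubgroup.mem_pi]
  rw [h1, ← prod_pow_eq_pow_sum, ← prod_congr rfl fun j _ => index_span_pow hϖ hq (ν j)]
  simp_rw [AddSubgroup.index, ← Nat.card_pi]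
  refine Nat.card_congr
    ((Quotient.congrRight (fun x y ↦ ?_)).trans (Setoid.piQuotientEquiv _).symm)
  simp only [QuotientAddGroup.leftRel_apply, AddSubgroup.mem_pi, Set.mem_univ, forall_true_left]
  exact ⟨fun h j => QuotientAddGroup.leftRel_apply.2 (h j),
    fun h j => QuotientAddGroup.leftRel_apply.1 (h j)⟩

omit [LinearOrder ι] in
lemma index_of_iff (hϖ : Irreducible ϖ) (hq : Nat.card (R ⧸ Ideal.span {ϖ}) = q) {ν : ι → ℕ}
    {M : Type} [AddCommGroup M] [Module R M] {Λ : Submodule R M} (g : M ≃ₗ[R] (ι → R))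
    (h : ∀ x, x ∈ Λ ↔ g x ∈ D ϖ ν) : Λ.toAddSubgroup.index = q ^ ∑ j, ν j := by
  have : Λ.toAddSubgroup = (D ϖ ν).toAddSubgroup.comap g.toLinearMap.toAddMonoidHom := by
    ext x; simpa using h x
  rw [this, AddSubgroup.index_comap_of_surjective _ g.surjective, index_D hϖ hq]

omit [IsDomain R] [IsDiscreteValuationRing R] in
lemma cell_zero (ϖ : R) (q : ℕ) : Cell ϖ q (0 : ι → ℕ) ∅ := by
  have hD : ∀ x : ι → R, x ∈ D ϖ (0 : ι → ℕ) := fun x => mem_D.2 fun j => by simp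
  refine ⟨fun _ => 0, fun Λ h1 _ => ⟨fun j => by simp [ind], le_rfl, LinearEquiv.refl _ _,
    fun j _ => ⟨rfl, fun _ => rfl⟩, fun x => iff_of_true (h1 (hD x)) (hD _)⟩, fun ν _ h2 => ?_⟩
  obtain rfl : ν = 0 := le_antisymm h2 zero_le
  have : ex (0 : ι → ℕ) 0 = 0 := by simp [ex, eps]
  rw [this, pow_zero, Nat.card_eq_one_iff_unique]
  refine ⟨⟨fun a b => Subtype.ext ?_⟩, ⟨⊤, ⟨le_top, fun x _ => mem_D.2 fun j => ?_⟩, rfl⟩⟩
  · ext x; exact iff_of_true (a.2.1.1 (hD x)) (b.2.1.1 (hD x))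
  · simp [ind]

/-- Multiplication by the uniformizer on the coordinates in `S`. -/
def scale (ϖ : R) (S : Finset ι) : (ι → R) →ₗ[R] (ι → R) :=
  LinearMap.pi fun j => (ϖ ^ ind S j) • LinearMap.proj j

omit [IsDomain R] [IsDiscreteValuationRing R] [Fintype ι] in
lemma scale_apply (S : Finset ι) (x : ι → R) (j : ι) : scale ϖ S x j = ϖ ^ ind S j * x j := rfl

omit [IsDiscreteValuationRing R] [Fintype ι] in
lemma scale_inj (h : ϖ ≠ 0) (S : Finset ι) : Function.Injective (scale ϖ S) := fun _ _ e =>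
  funext fun j => mul_left_cancel₀ (pow_ne_zero (ind S j) h) (congrFun e j)

omit [IsDiscreteValuationRing R] [Fintype ι] in
lemma scale_mem_D (h : ϖ ≠ 0) {S : Finset ι} {ν : ι → ℕ} {x : ι → R} :
    scale ϖ S x ∈ D ϖ (ν + ind S) ↔ x ∈ D ϖ ν := by
  simp only [mem_D, scale_apply, Pi.add_apply, pow_add]
  exact forall_congr' fun j => by rw [mul_comm, mul_dvd_mul_iff_left (pow_ne_zero _ h)]

omit [IsDomain R] [IsDiscreteValuationRing R] [Fintype ι] in
lemma exists_scale {S : Finset ι} {x : ι → R} (h : x ∈ D ϖ (ind S)) : ∃ y, scale ϖ S y = x := by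
  choose y hy using mem_D.1 h
  exact ⟨y, funext fun j => (hy j).symm⟩

omit [IsDomain R] [IsDiscreteValuationRing R] in
lemma scale_comm {μ : ι → ℕ} {S : Finset ι} (hS : ∀ j, j ∈ S ↔ μ j ≠ 0)
    {g : (ι → R) ≃ₗ[R] (ι → R)} (hg : Inv (μ - ind S) g) (x : ι → R) :
    g (scale ϖ S x) = scale ϖ S (g x) := by
  have : (g.toLinearMap ∘ₗ scale ϖ S) = scale ϖ S ∘ₗ g.toLinearMap := by
    refine LinearMap.pi_ext' fun l => LinearMap.ext_ring ?_
    have e : scale ϖ S (Pi.single l 1) = ϖ ^ ind S l • (Pi.single l 1 : ι → R) := by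
      funext j
      by_cases h : j = l
      · subst h; simp [scale_apply]
      · simp [scale_apply, Pi.single_eq_of_ne h]
    simp only [LinearMap.comp_apply, LinearMap.coe_single, LinearEquiv.coe_coe, e, map_smul]
    by_cases hl : (μ - ind S) l = 0
    · rw [(hg l hl).1, e]
    · funext j
      have hlS : l ∈ S := (hS l).2 fun h => hl (by simp [h])
      rw [scale_apply, Pi.smul_apply, smul_eq_mul]
      by_cases hj : j ∈ S
      · simp [ind, hj, hlS]
      · have h0 : (μ - ind S) j = 0 := by simp [not_not.1 (mt (hS j).2 hj)]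
        rw [(hg j h0).2, Pi.single_eq_of_ne fun h : j = l => hj (h ▸ hlS)]
        simp
  exact LinearMap.congr_fun this x

omit [Fintype ι] in
lemma eps_congr {μ ν μ' ν' : ι → ℕ} {j l : ι}
    (h1 : min (ν l - ν j) (μ j - ν j) = min (ν' l - ν' j) (μ' j - ν' j))
    (h2 : min (ν l - ν j) (μ j - ν j) ≠ 0 → (prec μ l j ↔ prec μ' l j)) :
    eps μ ν j l = eps μ' ν' j l := by
  unfold eps
  by_cases h : min (ν l - ν j) (μ j - ν j) = 0
  · rw [← h1, h]; simp
  · have h3 : ν j < ν l := by omega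
    have h4 : ν' j < ν' l := by omega
    simp only [h1, h2 h, h3, h4]

lemma ex_scale {μ ν : ι → ℕ} {S : Finset ι} (hS : ∀ j, j ∈ S ↔ μ j ≠ 0) (h1 : ind S ≤ ν)
    (h2 : ν ≤ μ) : ex (μ - ind S) (ν - ind S) = ex μ ν := by
  refine sum_congr rfl fun j _ => sum_congr rfl fun l _ => ?_
  have a1 := h1 j; have a2 := h1 l; have a3 := h2 j; have a4 := h2 l
  have a5 := hS j; have a6 := hS l
  refine eps_congr ?_ ?_ <;> simp only [prec, Pi.sub_apply, ind] at * <;>
    by_cases hj : j ∈ S <;> by_cases hl : l ∈ S <;> by_cases hlj : l < j <;>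
    simp only [hj, hl, hlj, if_true, if_false, true_iff, false_iff, not_not, and_true, and_false,
      or_false] at * <;> omega

omit [IsDiscreteValuationRing R] in
lemma cell_scale (h0 : ϖ ≠ 0) {μ : ι → ℕ} {S : Finset ι} (hS : ∀ j, j ∈ S ↔ μ j ≠ 0)
    (h : Cell ϖ q (μ - ind S) ∅) : Cell ϖ q μ S := by
  obtain ⟨τ, hτ1, hτ2⟩ := h
  have hind : ind S ≤ μ := fun j => by
    have := hS j
    simp only [ind]; split_ifs with h
    · exact Nat.pos_of_ne_zero (this.1 h)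
    · exact zero_le
  have hμ : μ - ind S + ind S = μ := tsub_add_cancel_of_le hind
  have htop : ∀ Λ : Submodule R (ι → R), Λ ≤ D ϖ (ind ∅) := fun Λ x _ =>
    mem_D.2 fun j => by simp [ind]
  have hlow : ∀ Λ, D ϖ μ ≤ Λ → D ϖ (μ - ind S) ≤ Λ.comap (scale ϖ S) := fun Λ hΛ x hx =>
    hΛ (hμ ▸ (scale_mem_D h0).2 hx)
  refine ⟨fun Λ => τ (Λ.comap (scale ϖ S)) + ind S, fun Λ h1 h2 => ?_, fun ν h1 h2 => ?_⟩
  · obtain ⟨-, h3, g, hg, h4⟩ := hτ1 _ (hlow Λ h1) (htop _)
    refine ⟨le_add_self, hμ ▸ add_le_add_left h3 _, g, fun j hj => hg j (by simp [hj]),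
      fun x => ⟨fun hx => ?_, fun hx => ?_⟩⟩
    · obtain ⟨y, rfl⟩ := exists_scale (h2 hx)
      rw [scale_comm hS hg, scale_mem_D h0]
      exact (h4 y).1 hx
    · obtain ⟨z, hz⟩ := exists_scale (D_anti le_add_self hx)
      obtain ⟨y, rfl⟩ := g.surjective z
      rw [← hz, scale_mem_D h0] at hx
      rw [← scale_comm hS hg, g.injective.eq_iff] at hz
      exact hz ▸ (h4 y).2 hx
  · rw [← ex_scale hS h1 h2, ← hτ2 (ν - ind S) (fun j => by simp [ind]) (tsub_le_tsub_right h2 _)]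
    refine Nat.card_congr
      { toFun := fun Λ => ⟨Λ.1.comap (scale ϖ S), ⟨hlow _ Λ.2.1.1, htop _⟩,
          eq_tsub_of_add_eq Λ.2.2⟩
        invFun := fun Λ => ⟨Λ.1.map (scale ϖ S), ⟨fun x hx => ?_, ?_⟩, by
          beta_reduce
          rw [Submodule.comap_map_eq_of_injective (scale_inj h0 S), Λ.2.2,
            tsub_add_cancel_of_le h1]⟩
        left_inv := fun Λ => Subtype.ext (Submodule.map_comap_eq_of_le fun x hx =>
          exists_scale (Λ.2.1.2 hx))
        right_inv := fun Λ => Subtype.ext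
          (Submodule.comap_map_eq_of_injective (scale_inj h0 S) _) }
    · obtain ⟨y, rfl⟩ := exists_scale (D_anti hind hx)
      rw [← hμ, scale_mem_D h0] at hx
      exact Submodule.mem_map_of_mem (Λ.2.1.1 hx)
    · rintro _ ⟨y, -, rfl⟩
      exact mem_D.2 fun j => Dvd.intro _ rfl

/-- The submodule obtained by forgetting the coordinate `j`. -/
def til (j : ι) (Λ : Submodule R (ι → R)) : Submodule R (ι → R) :=
  Λ.comap (LinearMap.transvection (LinearMap.proj j) (-Pi.single j 1))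

/-- The submodule obtained by adding the pivot vector `w`. -/
def lft (j : ι) (Λ : Submodule R (ι → R)) (w : ι → R) : Submodule R (ι → R) :=
  Λ.comap (LinearMap.transvection (LinearMap.proj j) (-w))

omit [IsDomain R] [IsDiscreteValuationRing R] [Fintype ι] in
lemma mem_til {j : ι} {Λ : Submodule R (ι → R)} {x : ι → R} :
    x ∈ til j Λ ↔ x - x j • Pi.single j 1 ∈ Λ := by
  simp [til, LinearMap.transvection.apply, sub_eq_add_neg]

omit [IsDomain R] [IsDiscreteValuationRing R] [Fintype ι] [LinearOrder ι] in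
lemma mem_lft {j : ι} {Λ : Submodule R (ι → R)} {w x : ι → R} :
    x ∈ lft j Λ w ↔ x - x j • w ∈ Λ := by
  simp [lft, LinearMap.transvection.apply, sub_eq_add_neg]

omit [IsDomain R] [IsDiscreteValuationRing R] [Fintype ι] in
lemma til_low {μ : ι → ℕ} {j : ι} {Λ : Submodule R (ι → R)} (h : D ϖ μ ≤ Λ) :
    D ϖ (Function.update μ j 0) ≤ til j Λ := fun x hx => mem_til.2 (h (mem_D.2 fun l => by
  by_cases hl : l = j
  · subst hl; simp
  · simpa [Pi.single_eq_of_ne hl, Function.update_of_ne hl] using mem_D.1 hx l))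

omit [IsDomain R] [IsDiscreteValuationRing R] [Fintype ι] in
lemma til_up {S : Finset ι} {j : ι} (hj : j ∉ S) {Λ : Submodule R (ι → R)}
    (h : Λ ≤ D ϖ (ind S)) : til j Λ ≤ D ϖ (ind S) := fun x hx => mem_D.2 fun l => by
  by_cases hl : l = j
  · subst hl; simp [ind, hj]
  · simpa [Pi.single_eq_of_ne hl] using mem_D.1 (h (mem_til.1 hx)) l

omit [IsDomain R] [IsDiscreteValuationRing R] [Fintype ι] in
lemma lft_til {j : ι} {Λ : Submodule R (ι → R)} {v : ι → R} (hv : v ∈ Λ) (h1 : v j = 1) :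
    lft j (til j Λ) v = Λ := by
  ext x
  rw [mem_lft, mem_til]
  simp only [Pi.sub_apply, Pi.smul_apply, h1, smul_eq_mul, mul_one, sub_self, zero_smul, sub_zero]
  exact Λ.sub_mem_iff_left (Λ.smul_mem _ hv)

omit [Fintype ι] in
lemma exists_pivot (hϖ : Irreducible ϖ) {S : Finset ι} {j : ι} {Λ : Submodule R (ι → R)}
    (h : Λ ≤ D ϖ (ind S)) (h' : ¬ Λ ≤ D ϖ (ind (insert j S))) : ∃ v ∈ Λ, v j = 1 := by
  obtain ⟨x, hx, hx'⟩ := SetLike.not_le_iff_exists.1 h'
  have : ¬ ϖ ∣ x j := fun hd => hx' (mem_D.2 fun l => by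
    by_cases hl : l = j
    · subst hl; simpa [ind] using hd
    · simpa [ind, hl] using mem_D.1 (h hx) l)
  have hu : IsUnit (x j) := by
    by_contra hn
    exact this (Ideal.mem_span_singleton.1 (hϖ.maximalIdeal_eq ▸ hn))
  obtain ⟨u, hu⟩ := hu.exists_left_inv
  exact ⟨u • x, Λ.smul_mem _ hx, hu⟩

lemma ex_pivot {μ ν : ι → ℕ} {S : Finset ι} {j : ι} (hj0 : μ j ≠ 0)
    (hS : ∀ l ∈ S, prec μ l j) (hmin : ∀ l ∉ S, μ l ≠ 0 → ¬ prec μ l j) (h1 : ind S ≤ ν)
    (h2 : ν ≤ Function.update μ j 0) :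
    ex μ ν = ex (Function.update μ j 0) ν + ∑ l, eps μ ν j l ∧
      ∑ l, eps μ ν j l + ∑ l, ind S l + ∑ l, (ν l - μ j) = ∑ l, ν l := by
  have hν : ν j = 0 := by simpa using h2 j
  constructor
  · unfold ex
    rw [← add_sum_erase _ (fun j => ∑ l, eps μ ν j l) (mem_univ j), ← add_sum_erase _
      (fun j' => ∑ l, eps (Function.update μ j 0) ν j' l) (mem_univ j), add_comm]
    have : ∑ l, eps (Function.update μ j 0) ν j l = 0 := by simp [eps]
    rw [this, zero_add]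
    congr 1
    refine sum_congr rfl fun j' hj' => sum_congr rfl fun l _ => eps_congr ?_ fun h => ?_
    · rw [Function.update_of_ne (ne_of_mem_erase hj')]
    · have : l ≠ j := fun e => h (by rw [e, hν]; simp)
      simp only [prec, Function.update_of_ne (ne_of_mem_erase hj'), Function.update_of_ne this]
  · rw [← sum_add_distrib, ← sum_add_distrib]
    refine sum_congr rfl fun l _ => ?_
    have a1 : ind S l ≤ ν l := h1 l
    have a2 : ν l ≤ Function.update μ j 0 l := h2 l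
    unfold eps
    by_cases hl : l ∈ S
    · simp only [ind, hl, if_true] at a1 ⊢
      rw [if_pos ⟨hS l hl, by omega⟩]
      omega
    · simp only [ind, hl, if_false]
      rw [if_neg]
      · omega
      · rintro ⟨a3, a4⟩
        have : l ≠ j := fun e => by rw [e] at a4; omega
        rw [Function.update_of_ne this] at a2
        exact hmin l hl (by omega) a3

/-- The number of submodules with a pivot at `j` above a given one. -/
lemma card_lft (hϖ : Irreducible ϖ) (hq : Nat.card (R ⧸ Ideal.span {ϖ}) = q) (hq0 : q ≠ 0)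
    {μ ν : ι → ℕ} {S : Finset ι} {j : ι} (hj : j ∉ S) (hS : ∀ l ∈ S, μ l ≤ μ j)
    {Λ₀ : Submodule R (ι → R)} (h1 : D ϖ (Function.update μ j 0) ≤ Λ₀) (h2 : Λ₀ ≤ D ϖ (ind S))
    {g : (ι → R) ≃ₗ[R] (ι → R)} (hg : ∀ x, x ∈ Λ₀ ↔ g x ∈ D ϖ ν) {A : ℕ}
    (hA : A + ∑ l, ind S l + ∑ l, (ν l - μ j) = ∑ l, ν l) :
    Nat.card {Λ // ((D ϖ μ ≤ Λ ∧ Λ ≤ D ϖ (ind S)) ∧ ¬ Λ ≤ D ϖ (ind (insert j S))) ∧
      til j Λ = Λ₀} = q ^ A := by
  set T : Submodule R (ι → R) := Λ₀.comap (ϖ ^ μ j • LinearMap.id) with hT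
  have hTm : ∀ w, w ∈ T ↔ ϖ ^ μ j • w ∈ Λ₀ := fun w => Iff.rfl
  have he : ∀ a : R, a • (Pi.single j 1 : ι → R) ∈ Λ₀ := fun a =>
    Λ₀.smul_mem _ (h1 (single_mem_D (by simp)))
  have hTi : T.toAddSubgroup.index = q ^ ∑ l, (ν l - μ j) := by
    refine index_of_iff hϖ hq g fun w => ?_
    rw [hTm, hg, map_smul, mem_D, mem_D]
    refine forall_congr' fun l => ?_
    rw [Pi.smul_apply, smul_eq_mul]
    rcases le_total (ν l) (μ j) with h | h
    · simp [Nat.sub_eq_zero_of_le h, (pow_dvd_pow ϖ h).mul_right]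
    · conv_lhs => rw [← Nat.add_sub_cancel' h, pow_add]
      exact mul_dvd_mul_iff_left (pow_ne_zero _ hϖ.ne_zero)
  have hle : Λ₀ ≤ T := fun x hx => Λ₀.smul_mem _ hx
  have hsup : T.toAddSubgroup ⊔ (D ϖ (ind S)).toAddSubgroup = ⊤ := by
    refine eq_top_iff.2 fun x _ => ?_
    rw [← univ_sum_single x]
    refine sum_mem fun l _ => ?_
    by_cases hl : l ∈ S
    · refine AddSubgroup.mem_sup_left ((hTm _).2 (h1 ?_))
      rw [← Pi.single_smul', smul_eq_mul]
      refine single_mem_D ((pow_dvd_pow ϖ ?_).mul_right _)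
      rw [Function.update_of_ne fun e : l = j => hj (e ▸ hl)]
      exact hS l hl
    · exact AddSubgroup.mem_sup_right (single_mem_D (by simp [ind, hl]))
  have hidx : Λ₀.toAddSubgroup.relIndex (T ⊓ D ϖ (ind S)).toAddSubgroup = q ^ A := by
    have e1 := AddSubgroup.relIndex_mul_relIndex Λ₀.toAddSubgroup
      (T ⊓ D ϖ (ind S)).toAddSubgroup T.toAddSubgroup (le_inf hle h2) fun _ h => h.1
    have e2 := AddSubgroup.relIndex_mul_index (H := Λ₀.toAddSubgroup) (K := T.toAddSubgroup) hle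
    have e3 : (T ⊓ D ϖ (ind S)).toAddSubgroup.relIndex T.toAddSubgroup = q ^ ∑ l, ind S l := by
      have e4 := AddSubgroup.relIndex_sup_right T.toAddSubgroup (D ϖ (ind S)).toAddSubgroup
      rw [hsup, AddSubgroup.relIndex_top_right, index_D hϖ hq] at e4
      rw [e4, ← AddSubgroup.inf_relIndex_left T.toAddSubgroup (D ϖ (ind S)).toAddSubgroup]
      rfl
    rw [← e1, e3, hTi, index_of_iff hϖ hq g hg, ← hA, pow_add, pow_add] at e2
    exact mul_right_cancel₀ (pow_ne_zero _ hq0) (mul_right_cancel₀ (pow_ne_zero _ hq0) e2)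
  have hx : ∀ w : ι → R, (w + (1 - w j) • (Pi.single j 1 : ι → R)) j = 1 := fun w => by simp
  let f : (T ⊓ D ϖ (ind S)).toAddSubgroup → {Λ // ((D ϖ μ ≤ Λ ∧ Λ ≤ D ϖ (ind S)) ∧
      ¬ Λ ≤ D ϖ (ind (insert j S))) ∧ til j Λ = Λ₀} := fun w => ⟨lft j Λ₀ w.1, by
    obtain ⟨w, hw1, hw2⟩ := w
    refine ⟨⟨⟨fun x hx => mem_lft.2 (sub_mem (h1 (D_anti (fun l => ?_) hx)) ?_), fun x hx => ?_⟩,
      fun h => ?_⟩, ?_⟩
    · by_cases hl : l = j
      · subst hl; simp
      · simp [Function.update_of_ne hl]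
    · obtain ⟨c, hc⟩ := mem_D.1 hx j
      rw [hc, mul_comm, mul_smul]
      exact Λ₀.smul_mem _ hw1
    · have := add_mem (h2 (mem_lft.1 hx)) (Submodule.smul_mem _ (x j) hw2)
      rwa [sub_add_cancel] at this
    · have := mem_D.1 (h (x := w + (1 - w j) • Pi.single j 1)
        (mem_lft.2 (by rw [hx, one_smul, add_sub_cancel_left]; exact he _))) j
      rw [hx] at this
      exact hϖ.not_isUnit (isUnit_of_dvd_one (by simpa [ind] using this))
    · ext x
      rw [mem_til, mem_lft]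
      simp only [Pi.sub_apply, Pi.smul_apply, Pi.single_eq_same, smul_eq_mul, mul_one, sub_self,
        zero_smul, sub_zero]
      exact Λ₀.sub_mem_iff_left (he _)⟩
  have hf : Function.Surjective f := by
    rintro ⟨Λ, ⟨⟨h3, h4⟩, h5⟩, rfl⟩
    obtain ⟨v, hv, hv1⟩ := exists_pivot hϖ h4 h5
    refine ⟨⟨v, (hTm v).2 (mem_til.2 (sub_mem (Λ.smul_mem _ hv) (h3 ?_))), h4 hv⟩,
      Subtype.ext (lft_til hv hv1)⟩
    rw [← Pi.single_smul']
    exact single_mem_D (by simp)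
  rw [← hidx, ← Nat.card_congr (Setoid.quotientKerEquivOfSurjective f hf)]
  refine Nat.card_congr (Quotient.congrRight fun w w' => ?_)
  rw [Setoid.ker_def, QuotientAddGroup.leftRel_apply, AddSubgroup.mem_addSubgroupOf,
    Subtype.ext_iff]
  change lft j Λ₀ w.1 = lft j Λ₀ w'.1 ↔ -w.1 + w'.1 ∈ Λ₀
  constructor
  · intro h
    have h3 : w.1 + (1 - w.1 j) • (Pi.single j 1 : ι → R) ∈ lft j Λ₀ w.1 :=
      mem_lft.2 (by rw [hx, one_smul, add_sub_cancel_left]; exact he _)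
    rw [h, mem_lft, hx, one_smul] at h3
    convert sub_mem (he (1 - w.1 j)) h3 using 1
    abel
  · intro h
    ext x
    rw [mem_lft, mem_lft, ← Λ₀.sub_mem_iff_left (Λ₀.smul_mem (x j) h)]
    congr! 1
    rw [smul_add, smul_neg]
    abel

lemma cell_pivot (hϖ : Irreducible ϖ) (hq : Nat.card (R ⧸ Ideal.span {ϖ}) = q) (hq0 : q ≠ 0)
    {μ : ι → ℕ} {S : Finset ι} {j : ι} (hj : j ∉ S) (hj0 : μ j ≠ 0)
    (hS : ∀ l ∈ S, prec μ l j) (hmin : ∀ l ∉ S, μ l ≠ 0 → ¬ prec μ l j)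
    (c1 : Cell ϖ q μ (insert j S)) (c2 : Cell ϖ q (Function.update μ j 0) S) : Cell ϖ q μ S := by
  obtain ⟨τ₁, a1, b1⟩ := c1
  obtain ⟨τ₂, a2, b2⟩ := c2
  have hind : ind S ≤ ind (insert j S) := fun l => by
    simp only [ind, mem_insert]; split_ifs <;> simp_all
  have hup : Function.update μ j 0 ≤ μ := fun l => by
    by_cases hl : l = j
    · subst hl; simp
    · simp [Function.update_of_ne hl]
  refine ⟨fun Λ => if Λ ≤ D ϖ (ind (insert j S)) then τ₁ Λ else τ₂ (til j Λ),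
    fun Λ h1 h2 => ?_, fun ν h1 h2 => ?_⟩
  · beta_reduce
    split_ifs with h
    · obtain ⟨h3, h4⟩ := a1 Λ h1 h
      exact ⟨hind.trans h3, h4⟩
    · obtain ⟨h3, h4, g, hg, h5⟩ := a2 _ (til_low h1) (til_up hj h2)
      obtain ⟨v, hv, hv1⟩ := exists_pivot hϖ h2 h
      set v' : ι → R := fun l => if μ l = 0 then 0 else v l with hv'
      have hv2 : v' j = 1 := by simp [hv', hj0, hv1]
      have hv3 : v' ∈ Λ := by
        rw [← Λ.sub_mem_iff_right hv]
        refine h1 (mem_D.2 fun l => ?_)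
        by_cases hl : μ l = 0 <;> simp [hv', hl]
      have h0 : (LinearMap.proj j : (ι → R) →ₗ[R] R) (Pi.single j 1 - v') = 0 := by simp [hv2]
      refine ⟨h3, h4.trans hup, (LinearEquiv.transvection h0).trans g, fun l hl => ?_, fun x => ?_⟩
      · have hlj : l ≠ j := fun e => hj0 (e ▸ hl)
        obtain ⟨h6, h7⟩ := hg l (by rwa [Function.update_of_ne hlj])
        refine ⟨?_, fun x => ?_⟩
        · simp [LinearMap.transvection.apply, Pi.single_eq_of_ne hlj.symm, h6]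
        · rw [LinearEquiv.trans_apply, h7]
          simp [LinearMap.transvection.apply, Pi.single_eq_of_ne hlj, hv', hl]
      · rw [LinearEquiv.trans_apply, ← h5, mem_til, LinearEquiv.transvection.apply,
          ← Λ.sub_mem_iff_left (Λ.smul_mem (x j) hv3)]
        congr! 1
        simp [hv2, smul_sub]
        abel
  · by_cases hν : ν j = 0
    · have h3 : ν ≤ Function.update μ j 0 := fun l => by
        by_cases hl : l = j
        · subst hl; simp [hν]
        · simpa [Function.update_of_ne hl] using h2 l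
      obtain ⟨e1, e2⟩ := ex_pivot hj0 hS hmin h1 h3
      have hn : ∀ Λ, D ϖ μ ≤ Λ → (if Λ ≤ D ϖ (ind (insert j S)) then τ₁ Λ else τ₂ (til j Λ)) = ν →
          ¬ Λ ≤ D ϖ (ind (insert j S)) := fun Λ h4 h5 h6 => by
        rw [if_pos h6] at h5
        have := (a1 Λ h4 h6).1 j
        simp [h5, hν, ind] at this
      rw [e1, pow_add]
      refine card_of_fibers (B := {Λ // (D ϖ (Function.update μ j 0) ≤ Λ ∧ Λ ≤ D ϖ (ind S)) ∧
        τ₂ Λ = ν}) (fun Λ => ⟨til j Λ.1, ⟨til_low Λ.2.1.1, til_up hj Λ.2.1.2⟩,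
          (if_neg (hn _ Λ.2.1.1 Λ.2.2)).symm.trans Λ.2.2⟩) (pow_ne_zero _ hq0)
        (pow_ne_zero _ hq0) (b2 ν h1 h3) ?_
      rintro ⟨Λ₀, ⟨h4, h5⟩, h6⟩
      obtain ⟨-, -, g, -, hg⟩ := a2 Λ₀ h4 h5
      rw [h6] at hg
      rw [← card_lft hϖ hq hq0 hj (fun l hl => (hS l hl).elim le_of_lt fun h => h.1.le) h4 h5 hg e2]
      exact Nat.card_congr
        { toFun := fun Λ => ⟨Λ.1.1, ⟨Λ.1.2.1, hn _ Λ.1.2.1.1 Λ.1.2.2⟩, congrArg Subtype.val Λ.2⟩
          invFun := fun Λ => ⟨⟨Λ.1, Λ.2.1.1, (if_neg Λ.2.1.2).trans (Λ.2.2.symm ▸ h6)⟩,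
            Subtype.ext Λ.2.2⟩
          left_inv := fun _ => rfl
          right_inv := fun _ => rfl }
    · have h3 : ind (insert j S) ≤ ν := fun l => by
        by_cases hl : l = j
        · subst hl; simpa [ind] using Nat.one_le_iff_ne_zero.2 hν
        · simpa [ind, hl] using h1 l
      rw [← b1 ν h3 h2]
      refine Nat.card_congr (Equiv.subtypeEquivRight fun Λ => ⟨fun ⟨⟨h4, h5⟩, h6⟩ => ?_,
        fun ⟨⟨h4, h5⟩, h6⟩ => ⟨⟨h4, h5.trans (D_anti hind)⟩, (if_pos h5).trans h6⟩⟩)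
      by_cases h : Λ ≤ D ϖ (ind (insert j S))
      · exact ⟨⟨h4, h⟩, (if_pos h).symm.trans h6⟩
      · have := (a2 _ (til_low h4) (til_up hj h5)).2.1 j
        rw [(if_neg h).symm.trans h6] at this
        exact absurd (by simpa using this) hν

theorem cell (hϖ : Irreducible ϖ) (hq : Nat.card (R ⧸ Ideal.span {ϖ}) = q) (hq0 : q ≠ 0)
    (n : ℕ) : ∀ (μ : ι → ℕ), ∑ l, μ l = n → ∀ (k : ℕ) (S : Finset ι), (univ \ S).card = k →
      (∀ l ∈ S, μ l ≠ 0) → (∀ l ∈ S, ∀ j ∉ S, μ j ≠ 0 → prec μ l j) → Cell ϖ q μ S := by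
  induction n using Nat.strong_induction_on with
  | _ n ih =>
  intro μ hμ k
  induction k using Nat.strong_induction_on with
  | _ k ihk =>
  intro S hk h1 h2
  by_cases hall : ∀ j, μ j ≠ 0 → j ∈ S
  · rcases S.eq_empty_or_nonempty with rfl | ⟨l, hl⟩
    · obtain rfl : μ = 0 := funext fun j => by_contra fun h => notMem_empty _ (hall j h)
      exact cell_zero ϖ q
    · refine cell_scale hϖ.ne_zero (fun j => ⟨h1 j, hall j⟩) (ih _ ?_ _ rfl _ _ rfl
        (fun _ h => absurd h (notMem_empty _)) fun _ h => absurd h (notMem_empty _))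
      rw [← hμ]
      refine sum_lt_sum (fun j _ => Nat.sub_le _ _) ⟨l, mem_univ _, ?_⟩
      have := h1 l hl
      simp only [Pi.sub_apply, ind, hl, if_true]
      omega
  · push Not at hall
    obtain ⟨j, hj, hmin⟩ := (univ.filter fun j => μ j ≠ 0 ∧ j ∉ S).exists_min_image
      (fun j => toLex (μ j, j)) (hall.imp fun j h => by simpa using h)
    simp only [mem_filter, mem_univ, true_and] at hj hmin
    have hp : ∀ l j, prec μ l j ↔ toLex (μ l, l) < toLex (μ j, j) := fun l j => by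
      rw [Prod.Lex.toLex_lt_toLex]; rfl
    refine cell_pivot hϖ hq hq0 hj.2 hj.1 (fun l hl => h2 l hl j hj.2 hj.1)
      (fun l hl h0 => (hp l j).not.2 (not_lt.2 (hmin l ⟨h0, hl⟩))) (ihk _ ?_ _ rfl ?_ ?_)
      (ih _ ?_ _ rfl _ _ rfl ?_ ?_)
    · rw [← hk]
      rw [sdiff_insert]
      exact card_erase_lt_of_mem (by simp [hj.2])
    · intro l hl
      rcases mem_insert.1 hl with rfl | hl
      exacts [hj.1, h1 l hl]
    · intro l hl j' hj' h0
      rw [mem_insert, not_or] at hj'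
      rcases mem_insert.1 hl with rfl | hl
      · refine (hp _ _).2 (lt_of_le_of_ne (hmin j' ⟨h0, hj'.2⟩) fun e => hj'.1 ?_)
        exact (congrArg (fun x => (ofLex x).2) e).symm
      · exact h2 l hl j' hj'.2 h0
    · rw [← hμ]
      refine sum_lt_sum (fun l _ => ?_) ⟨j, mem_univ _, by simpa using Nat.pos_of_ne_zero hj.1⟩
      by_cases hl : l = j
      · subst hl; simp
      · simp [Function.update_of_ne hl]
    · intro l hl
      rw [Function.update_of_ne fun e : l = j => hj.2 (e ▸ hl)]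
      exact h1 l hl
    · intro l hl j' hj' h0
      have e1 : l ≠ j := fun e => hj.2 (e ▸ hl)
      have e2 : j' ≠ j := fun e => h0 (by simp [e])
      rw [Function.update_of_ne e2] at h0
      simpa only [prec, Function.update_of_ne e1, Function.update_of_ne e2] using h2 l hl j' hj' h0

end Pool.Agent.P.MP_8598be_al
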