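import Pool.Agent.P.MP_8598be_al.Tower

/-!
The number of chains of given index as a sum over order-preserving functions.
-/

namespace Pool.Agent.P.MP_8598be_al

open Finset
open scoped Classical

variable {R : Type} [CommRing R] {L : Type} [AddCommGroup L] [Module R L]

/-- The index set of all coordinates. -/
abbrev PP (k : ℕ → ℕ) (c : ℕ) : Type := Σ i : Fin c, Fin (k i)

/-- Extension by zero. -/
def xt {k : ℕ → ℕ} {c : ℕ} (ν : PP k c → ℕ) : ∀ i, Fin (k i) → ℕ :=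
  fun i j => if h : i < c then ν ⟨⟨i, h⟩, j⟩ else 0

/-- Upper bounds for the types, with the least possible bound in the first degree. -/
def mu' {k : ℕ → ℕ} (θ : ∀ i, (Fin (k i) → ℕ) → Fin (k (i + 1)) → ℕ)
    (ν : ∀ i, Fin (k i) → ℕ) : ∀ i, Fin (k i) → ℕ := mu (univ.sup (ν 0)) θ ν

lemma sum_xt {k : ℕ → ℕ} {c : ℕ} (ν : PP k c → ℕ) :
    ∑ i ∈ range c, ∑ j, xt ν i j = ∑ p, ν p := by
  rw [Fintype.sum_sigma, sum_range]
  exact sum_congr rfl fun i _ => sum_congr rfl fun j _ => dif_pos i.2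

lemma ex_mu {k : ℕ → ℕ} {θ : ∀ i, (Fin (k i) → ℕ) → Fin (k (i + 1)) → ℕ}
    {ν : ∀ i, Fin (k i) → ℕ} {N : ℕ} (h : ∀ j, ν 0 j ≤ N) (i : ℕ) :
    (ν i ≤ mu N θ ν i ↔ ν i ≤ mu' θ ν i) ∧ ex (mu N θ ν i) (ν i) = ex (mu' θ ν i) (ν i) := by
  cases i with
  | zero =>
    have h' : ∀ j, ν 0 j ≤ univ.sup (ν 0) := fun j => le_sup (mem_univ j)
    refine ⟨iff_of_true h h', sum_congr rfl fun j _ => sum_congr rfl fun l _ =>
      eps_congr ?_ fun _ => by simp [prec, mu, mu']⟩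
    have := h l
    have := h' l
    simp only [mu, mu']
    omega
  | succ i => exact ⟨Iff.rfl, rfl⟩

variable [IsDomain R] [IsDiscreteValuationRing R] {ϖ : R} {q : ℕ}

omit [IsDomain R] [IsDiscreteValuationRing R] in
lemma one_lt_q (hϖ : Irreducible ϖ) (hq : Nat.card (R ⧸ Ideal.span {ϖ}) = q) (hq0 : q ≠ 0) :
    1 < q := by
  have : Finite (R ⧸ Ideal.span {ϖ}) := Nat.finite_of_card_ne_zero (hq ▸ hq0)
  have : Nontrivial (R ⧸ Ideal.span {ϖ}) :=
    Ideal.Quotient.nontrivial_iff.2 (Ideal.span_singleton_ne_top hϖ.not_isUnit)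
  exact hq ▸ Finite.one_lt_card

lemma DL_le_of_index (hϖ : Irreducible ϖ) (hq : Nat.card (R ⧸ Ideal.span {ϖ}) = q) (hq0 : q ≠ 0)
    {F Λ : Submodule R L} {ι : Type} (g : F ≃ₗ[R] (ι → R)) {n : ℕ}
    (h0 : Λ.toAddSubgroup.relIndex F.toAddSubgroup ≠ 0)
    (h1 : Λ.toAddSubgroup.relIndex F.toAddSubgroup ≤ q ^ n) : DL ϖ g (fun _ => n) ≤ Λ := by
  rintro _ ⟨y, hy, rfl⟩
  choose z hz using mem_D.1 hy
  obtain rfl : y = ϖ ^ n • z := funext hz
  rw [map_smul]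
  have hxF : (F.subtype ∘ₗ g.symm.toLinearMap) z ∈ F := (g.symm z).2
  generalize (F.subtype ∘ₗ g.symm.toLinearMap) z = x at hxF
  obtain ⟨I, hI⟩ : ∃ I : Ideal R, I = Λ.comap (LinearMap.toSpanSingleton R L x) := ⟨_, rfl⟩
  have e : I.toAddSubgroup.index = Λ.toAddSubgroup.relIndex
      (LinearMap.toSpanSingleton R L x).toAddMonoidHom.range := by
    rw [← AddSubgroup.index_comap, hI]
    rfl
  have hle : (LinearMap.toSpanSingleton R L x).toAddMonoidHom.range ≤ F.toAddSubgroup := by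
    rintro _ ⟨a, rfl⟩
    exact F.smul_mem a hxF
  have h2 := AddSubgroup.relIndex_le_of_le_right hle h0
  have h3 : I.toAddSubgroup.index ≠ 0 := fun h =>
    h0 (AddSubgroup.relIndex_eq_zero_of_le_right hle (e.symm.trans h))
  have hI0 : I ≠ ⊥ := by
    intro h
    have : Infinite R := not_finite_iff_infinite.1 fun _ =>
      IsDiscreteValuationRing.not_isField R (Finite.isField_of_domain R)
    rw [h] at h3
    exact h3 (Submodule.cardQuot_bot R R)
  obtain ⟨a, ha⟩ := IsDiscreteValuationRing.ideal_eq_span_pow_irreducible hI0 hϖ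
  rw [← e, ha, index_span_pow hϖ hq] at h2
  have : ϖ ^ n ∈ I := by
    rw [ha]
    exact Ideal.mem_span_singleton.2 (pow_dvd_pow ϖ
      ((Nat.pow_le_pow_iff_right (one_lt_q hϖ hq hq0)).1 (h2.trans h1)))
  rw [hI] at this
  exact this

theorem count (hϖ : Irreducible ϖ) (hq : Nat.card (R ⧸ Ideal.span {ϖ}) = q) (hq0 : q ≠ 0)
    {F : ℕ → Submodule R L} {br : Submodule R L → Submodule R L} {k : ℕ → ℕ}
    {θ : ∀ i, (Fin (k i) → ℕ) → Fin (k (i + 1)) → ℕ} (g₀ : F 0 ≃ₗ[R] (Fin (k 0) → R))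
    (c : ℕ) (H : ∀ i, i + 1 < c → ∀ (g : F i ≃ₗ[R] (Fin (k i) → R)) ν,
      ∃ g' : F (i + 1) ≃ₗ[R] (Fin (k (i + 1)) → R), br (DL ϖ g ν) = DL ϖ g' (θ i ν)) (n : ℕ) :
    Nat.card {Λ : Fin c → Submodule R L // (∀ i, Λ i ≤ F i) ∧
      (∀ i j : Fin c, j.val = i.val + 1 → br (Λ i) ≤ Λ j) ∧
      ∏ i, (Λ i).toAddSubgroup.relIndex (F i).toAddSubgroup = q ^ n} =
    ∑ ν ∈ piAntidiag (univ : Finset (PP k c)) n,
      if ∀ i, i < c → xt ν i ≤ mu' θ (xt ν) i then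
        q ^ ∑ i ∈ range c, ex (mu' θ (xt ν) i) (xt ν i) else 0 := by
  obtain ⟨τ, h1, h2⟩ := tower hϖ hq hq0 g₀ n c H
  set U := DL ϖ g₀ fun _ => n with hU
  have hidx : ∀ Λ, Chain F U br c Λ → ∏ i : Fin c, (Λ i).toAddSubgroup.relIndex
      (F i).toAddSubgroup = q ^ ∑ p : PP k c, τ Λ p.1 p.2 := by
    intro Λ hΛ
    rw [Fintype.sum_sigma, ← prod_pow_eq_pow_sum]
    refine prod_congr rfl fun i _ => ?_
    obtain ⟨g, hg⟩ := ((h1 Λ hΛ).2 i i.2).2
    rw [← relIndex_DL hϖ hq g, ← hg]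
  have e : {Λ : Fin c → Submodule R L // (∀ i, Λ i ≤ F i) ∧
      (∀ i j : Fin c, j.val = i.val + 1 → br (Λ i) ≤ Λ j) ∧
      ∏ i, (Λ i).toAddSubgroup.relIndex (F i).toAddSubgroup = q ^ n} ≃
      {Λ // Chain F U br c Λ ∧ ∑ p : PP k c, τ Λ p.1 p.2 = n} :=
    { toFun := fun Λ => ⟨fun i => if h : i < c then Λ.1 ⟨i, h⟩ else F i, by
        obtain ⟨Λ, h3, h4, h5⟩ := Λ
        have hc : Chain F U br c fun i => if h : i < c then Λ ⟨i, h⟩ else F i := by
          refine ⟨fun i hi => dif_neg (not_lt.2 hi), fun i hi => ?_⟩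
          simp only [dif_pos hi]
          refine ⟨?_, h3 ⟨i, hi⟩⟩
          cases i with
          | zero =>
            have hd := dvd_prod_of_mem (fun i : Fin c => (Λ i).toAddSubgroup.relIndex
              (F i).toAddSubgroup) (mem_univ (⟨0, hi⟩ : Fin c))
            rw [h5] at hd
            exact DL_le_of_index hϖ hq hq0 g₀ (ne_zero_of_dvd_ne_zero (pow_ne_zero _ hq0) hd)
              (Nat.le_of_dvd (pow_pos (Nat.pos_of_ne_zero hq0) _) hd)
          | succ i =>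
            simp only [low, dif_pos (Nat.lt_of_succ_lt hi)]
            exact h4 _ _ rfl
        refine ⟨hc, Nat.pow_right_injective (one_lt_q hϖ hq hq0) ?_⟩
        beta_reduce
        rw [← hidx _ hc, ← h5]
        exact prod_congr rfl fun i _ => by rw [dif_pos i.2]⟩
      invFun := fun Λ => ⟨fun i => Λ.1 i, fun i => (Λ.2.1.2 i i.2).2, fun i j h => by
        have := (Λ.2.1.2 j j.2).1
        beta_reduce
        rwa [h] at this ⊢, by rw [hidx _ Λ.2.1, Λ.2.2]⟩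
      left_inv := fun Λ => Subtype.ext (funext fun i => dif_pos i.2)
      right_inv := fun Λ => Subtype.ext (funext fun i => by
        by_cases h : i < c
        · exact dif_pos h
        · exact (dif_neg h).trans (Λ.2.1.1 i (not_lt.1 h)).symm) }
  have hxt : ∀ Λ, Chain F U br c Λ → xt (fun p : PP k c => τ Λ p.1 p.2) = τ Λ := by
    intro Λ hΛ
    funext i j
    by_cases h : i < c
    · exact dif_pos h
    · rw [(h1 Λ hΛ).1 i (not_lt.1 h)]
      exact dif_neg h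
  have key : ∀ ν ∈ piAntidiag (univ : Finset (PP k c)) n,
      {Λ : {Λ // Chain F U br c Λ ∧ ∑ p : PP k c, τ Λ p.1 p.2 = n} //
        (fun p : PP k c => τ Λ.1 p.1 p.2) = ν} ≃ {Λ // Chain F U br c Λ ∧ τ Λ = xt ν} :=
    fun ν hν =>
    { toFun := fun Λ => ⟨Λ.1.1, Λ.1.2.1, by rw [← hxt _ Λ.1.2.1, Λ.2]⟩
      invFun := fun Λ =>
        have h : (fun p : PP k c => τ Λ.1 p.1 p.2) = ν := funext fun p => by
          rw [Λ.2.2]; exact dif_pos p.1.2
        ⟨⟨Λ.1, Λ.2.1, (congrArg univ.sum h).trans (mem_piAntidiag.1 hν).1⟩, h⟩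
      left_inv := fun _ => rfl
      right_inv := fun _ => rfl }
  have hb : ∀ ν ∈ piAntidiag (univ : Finset (PP k c)) n, ∀ j, xt ν 0 j ≤ n := by
    intro ν hν j
    unfold xt
    split_ifs
    · exact (mem_piAntidiag.1 hν).1 ▸ single_le_sum (fun _ _ => zero_le) (mem_univ _)
    · exact zero_le
  have hval : ∀ ν ∈ piAntidiag (univ : Finset (PP k c)) n,
      Finite {Λ // Chain F U br c Λ ∧ τ Λ = xt ν} ∧
      Nat.card {Λ // Chain F U br c Λ ∧ τ Λ = xt ν} = if ∀ i, i < c → xt ν i ≤ mu' θ (xt ν) i then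
        q ^ ∑ i ∈ range c, ex (mu' θ (xt ν) i) (xt ν i) else 0 := by
    intro ν hν
    split_ifs with h
    · have := h2 (xt ν) (fun i hi => funext fun j => dif_neg (not_lt.2 hi))
        fun i hi => (ex_mu (hb ν hν) i).1.2 (h i hi)
      refine ⟨Nat.finite_of_card_ne_zero (this ▸ pow_ne_zero _ hq0), this.trans ?_⟩
      rw [sum_congr rfl fun i _ => (ex_mu (hb ν hν) i).2]
    · have : IsEmpty {Λ // Chain F U br c Λ ∧ τ Λ = xt ν} := ⟨fun Λ => h fun i hi =>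
        (ex_mu (hb ν hν) i).1.1 (Λ.2.2 ▸ ((h1 _ Λ.2.1).2 i hi).1)⟩
      exact ⟨inferInstance, Nat.card_of_isEmpty⟩
  rw [Nat.card_congr e, card_eq_sum_fibers (fun Λ (p : PP k c) => τ Λ.1 p.1 p.2)
    (piAntidiag univ n) (fun Λ => mem_piAntidiag.2 ⟨Λ.2.2, fun _ _ => mem_univ _⟩)
    fun ν hν => have := (hval ν hν).1; Finite.of_equiv _ (key ν hν).symm]
  exact sum_congr rfl fun ν hν => (Nat.card_congr (key ν hν)).trans (hval ν hν).2

end Pool.Agent.P.MP_8598be_al
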