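import Mathlib

/-!
Graded ideal zeta functions of free nilpotent Lie rings: definitions.
-/

namespace Pool.Agent.P.MP_8598be_al

/-- The homogeneous part of degree `i + 1` of the free Lie algebra over `R` on `d` generators:
the span of the generators for `i = 0`, and the span of the brackets of degree `i` elements with
degree one elements afterwards. -/
noncomputable def piece (R : Type) [CommRing R] (d : ℕ) : ℕ → Submodule R (FreeLieAlgebra R (Fin d))
  | 0 => Submodule.span R (Set.range (FreeLieAlgebra.of R))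
  | i + 1 => Submodule.span R {z | ∃ x ∈ piece R d i,
      ∃ y ∈ Submodule.span R (Set.range (FreeLieAlgebra.of R (X := Fin d))), z = ⁅x, y⁆}

/-- The number of tuples of submodules of the homogeneous parts of degrees `1, …, c`, closed under
bracketing with degree one, whose indices have product `m`. -/
noncomputable def idealCount (R : Type) [CommRing R] (c d m : ℕ) : ℕ :=
  Nat.card {Λ : Fin c → Submodule R (FreeLieAlgebra R (Fin d)) //
    (∀ i, Λ i ≤ piece R d i) ∧
    (∀ i j : Fin c, j.val = i.val + 1 → ∀ x ∈ Λ i, ∀ y ∈ piece R d 0, ⁅x, y⁆ ∈ Λ j) ∧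
    ∏ i, (Λ i).toAddSubgroup.relIndex (piece R d i).toAddSubgroup = m}

/-- The graded ideal zeta function as a power series in `Y = q ^ (-s)`. -/
noncomputable def zetaSeries (R : Type) [CommRing R] (c d q : ℕ) : PowerSeries ℚ :=
  PowerSeries.mk fun n => (idealCount R c d (q ^ n) : ℚ)

/-- The rank `r = W(1) + … + W(c)`, by Witt's formula. -/
def rk (c d : ℕ) : ℕ :=
  ∑ i ∈ Finset.Icc 1 c,
    ((∑ k ∈ i.divisors, ArithmeticFunction.moebius k * (d : ℤ) ^ (i / k)) / i).toNat

/-- The field `ℚ(X, Y)`. -/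
abbrev RatXY : Type := FractionRing (MvPolynomial (Fin 2) ℚ)

/-- `W` is defined at the point `(x, y)` of the field `K` and has the value `z` there. -/
def EvalAt (W : RatXY) {K : Type} [Field K] [Algebra ℚ K] (x y z : K) : Prop :=
  ∃ A B : MvPolynomial (Fin 2) ℚ, W = algebraMap _ RatXY A / algebraMap _ RatXY B ∧
    MvPolynomial.aeval ![x, y] B ≠ 0 ∧
    z = MvPolynomial.aeval ![x, y] A / MvPolynomial.aeval ![x, y] B

/-- The rational function `Z` is defined at `t` and has the value `v` there. -/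
def ValueAt (Z : RatFunc ℚ) (t v : ℚ) : Prop :=
  ∃ N D : Polynomial ℚ, Z = algebraMap _ (RatFunc ℚ) N / algebraMap _ (RatFunc ℚ) D ∧
    D.eval t ≠ 0 ∧ v = N.eval t / D.eval t

/-- `W(q, Y)` is the graded ideal zeta function for almost all primes `p` and all finite
extensions `o` of `ℤ_p`, with `q` the size of the residue field of `o`. -/
def Uniform (c d : ℕ) (W : RatXY) : Prop :=
  ∃ S : Finset ℕ, ∀ (p : ℕ) [Fact p.Prime], p ∉ S →
    ∀ (o : Type) [CommRing o] [IsDomain o] [IsDiscreteValuationRing o] [CharZero o]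
      [Algebra ℤ_[p] o] [Module.Finite ℤ_[p] o],
      EvalAt W ((Nat.card (IsLocalRing.ResidueField o) : ℕ) : LaurentSeries ℚ)
        ((PowerSeries.X : PowerSeries ℚ) : LaurentSeries ℚ)
        (zetaSeries o c d (Nat.card (IsLocalRing.ResidueField o)) : LaurentSeries ℚ)

/-- `Z ∈ ℚ(s)` is the coefficient of `h ^ (-r)` in the expansion of `W(1 + h, (1 + h) ^ (-s))` in
powers of `h = q - 1`. -/
def IsTopZeta (r : ℕ) (W : RatXY) (Z : RatFunc ℚ) : Prop :=
  ∃ T : LaurentSeries (RatFunc ℚ),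
    EvalAt W ((1 + PowerSeries.X : PowerSeries (RatFunc ℚ)) : LaurentSeries (RatFunc ℚ))
      (PowerSeries.binomialSeries (RatFunc ℚ) (-RatFunc.X : RatFunc ℚ) :
        LaurentSeries (RatFunc ℚ)) T ∧ Z = T.coeff (-(r : ℤ))

/-- With `ζ_top` and `ζ_red(Y) = W(1, Y)`, both `s ^ (-r) ζ_top(1 / s)` at `s = 0` and
`(1 - Y) ^ r ζ_red(Y)` at `Y = 1` are defined and equal to `v`. -/
def BothValues (r : ℕ) (W : RatXY) (v : ℚ) : Prop :=
  ∃ Ztop Zred : RatFunc ℚ, IsTopZeta r W Ztop ∧ EvalAt W 1 RatFunc.X Zred ∧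
    ValueAt (RatFunc.X⁻¹ ^ r * RatFunc.eval RatFunc.C RatFunc.X⁻¹ Ztop) 0 v ∧
    ValueAt ((1 - RatFunc.X) ^ r * Zred) 1 v

end Pool.Agent.P.MP_8598be_al
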