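import Pool.Agent.P.MP_8598be_al.Series
import Pool.Agent.P.MP_8598be_al.Defs

/-!
The topological and the reduced zeta function of a sum of products of geometric series.
-/

namespace Pool.Agent.P.MP_8598be_al

open Finset

section ev

variable {K : Type} [Field K] [Algebra ℚ K] {x y z z' : K} {W W' : RatXY}

lemma ev_ne {B : MvPolynomial (Fin 2) ℚ} (h : MvPolynomial.aeval ![x, y] B ≠ 0) :
    algebraMap _ RatXY B ≠ 0 := fun e => h (by
  rw [(IsFractionRing.injective _ RatXY) (e.trans (map_zero _).symm), map_zero])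

lemma ev_poly (A : MvPolynomial (Fin 2) ℚ) :
    EvalAt (algebraMap _ RatXY A) x y (MvPolynomial.aeval ![x, y] A) := ⟨A, 1, by simp⟩

lemma EvalAt.add (h : EvalAt W x y z) (h' : EvalAt W' x y z') : EvalAt (W + W') x y (z + z') := by
  obtain ⟨A, B, rfl, h1, rfl⟩ := h
  obtain ⟨A', B', rfl, h2, rfl⟩ := h'
  refine ⟨A * B' + B * A', B * B', ?_, by simp [h1, h2], ?_⟩
  · rw [div_add_div _ _ (ev_ne h1) (ev_ne h2), map_add, map_mul, map_mul, map_mul]
  · rw [div_add_div _ _ h1 h2, map_add, map_mul, map_mul, map_mul]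

lemma EvalAt.mul (h : EvalAt W x y z) (h' : EvalAt W' x y z') : EvalAt (W * W') x y (z * z') := by
  obtain ⟨A, B, rfl, h1, rfl⟩ := h
  obtain ⟨A', B', rfl, h2, rfl⟩ := h'
  exact ⟨A * A', B * B', by rw [div_mul_div_comm, map_mul, map_mul], by simp [h1, h2],
    by rw [div_mul_div_comm, map_mul, map_mul]⟩

lemma EvalAt.inv (h : EvalAt W x y z) (hz : z ≠ 0) : EvalAt W⁻¹ x y z⁻¹ := by
  obtain ⟨A, B, rfl, h1, rfl⟩ := h
  exact ⟨B, A, inv_div _ _, (div_ne_zero_iff.1 hz).1, inv_div _ _⟩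

/-- The first variable. -/
noncomputable abbrev vX : RatXY := algebraMap (MvPolynomial (Fin 2) ℚ) RatXY (MvPolynomial.X 0)

/-- The second variable. -/
noncomputable abbrev vY : RatXY := algebraMap (MvPolynomial (Fin 2) ℚ) RatXY (MvPolynomial.X 1)

lemma ev_fac {ab : ℕ × ℕ} (h : 1 - x ^ ab.1 * y ^ ab.2 ≠ 0) :
    EvalAt (fac vX vY ab) x y (fac x y ab) :=
  ⟨MvPolynomial.X 0 ^ ab.1 * MvPolynomial.X 1 ^ ab.2,
    1 - MvPolynomial.X 0 ^ ab.1 * MvPolynomial.X 1 ^ ab.2, by simp [fac], by simpa using h,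
    by simp [fac]⟩

lemma ev_term (hx : x ≠ 0) {t : ℤ × List (ℕ × ℕ)} (h : ∀ ab ∈ t.2, 1 - x ^ ab.1 * y ^ ab.2 ≠ 0) :
    EvalAt (term vX vY t) x y (term x y t) := by
  obtain ⟨e, l⟩ := t
  have h1 : ∀ n : ℕ, EvalAt (vX ^ n) x y (x ^ n) := fun n => by
    simpa using ev_poly (x := x) (y := y) (MvPolynomial.X 0 ^ n)
  refine EvalAt.mul ?_ ?_
  · obtain ⟨n, rfl | rfl⟩ := e.eq_nat_or_neg
    · simpa using h1 n
    · simpa using (h1 n).inv (pow_ne_zero _ hx)
  · induction l with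
    | nil => simpa using h1 0
    | cons ab l ih =>
      simp only [List.map_cons, List.prod_cons]
      exact (ev_fac (h ab List.mem_cons_self)).mul (ih fun c hc => h c (List.mem_cons_of_mem _ hc))

lemma ev_sum (hx : x ≠ 0) {T : Multiset (ℤ × List (ℕ × ℕ))}
    (h : ∀ t ∈ T, ∀ ab ∈ t.2, 1 - x ^ ab.1 * y ^ ab.2 ≠ 0) :
    EvalAt (T.map (term vX vY)).sum x y (T.map (term x y)).sum := by
  induction T using Multiset.induction with
  | empty => simpa using ev_poly (x := x) (y := y) 0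
  | cons t T ih =>
    simp only [Multiset.map_cons, Multiset.sum_cons]
    exact (ev_term hx (h t (Multiset.mem_cons_self _ _))).add
      (ih fun s hs => h s (Multiset.mem_cons_of_mem hs))

lemma ev_sub_zero (h : EvalAt W x y z) (h' : EvalAt W' x y z) {A B : MvPolynomial (Fin 2) ℚ}
    (hB : algebraMap _ RatXY B ≠ 0) (e : algebraMap _ RatXY A / algebraMap _ RatXY B = W - W') :
    MvPolynomial.aeval ![x, y] A = 0 := by
  obtain ⟨A₁, B₁, h1, h2, h3⟩ := h.add ((ev_poly (x := x) (y := y) (-1)).mul h')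
  simp only [map_neg, map_one, neg_one_mul, add_neg_cancel, ← sub_eq_add_neg] at h1 h3
  rw [h1, div_eq_div_iff hB (ev_ne h2), ← map_mul, ← map_mul] at e
  have := congrArg (MvPolynomial.aeval ![x, y]) (IsFractionRing.injective _ RatXY e)
  rw [map_mul, map_mul, (div_eq_zero_iff.1 h3.symm).resolve_right h2, zero_mul] at this
  exact (mul_eq_zero.1 this).resolve_right h2

end ev

lemma uniform_unique {c d : ℕ} {W W' : RatXY} (h : Uniform c d W) (h' : Uniform c d W') :
    W' = W := by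
  obtain ⟨S, hS⟩ := h
  obtain ⟨S', hS'⟩ := h'
  obtain ⟨A, B, hB, e⟩ := IsFractionRing.div_surjective (A := MvPolynomial (Fin 2) ℚ) (W' - W)
  have hB' : algebraMap _ RatXY B ≠ 0 := IsFractionRing.to_map_ne_zero_of_mem_nonZeroDivisors hB
  suffices A = 0 by rwa [this, map_zero, zero_div, eq_comm, sub_eq_zero] at e
  refine MvPolynomial.funext_set ![(fun p : ℕ => (p : ℚ)) '' ({p | p.Prime} \ (S ∪ S' : Finset ℕ)),
    Set.univ] (fun i => ?_) fun v hv => ?_
  · fin_cases i
    · exact (Nat.infinite_setOfPred_prime.sdiff (Finset.finite_toSet _)).image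
        Nat.cast_injective.injOn
    · exact Set.infinite_univ
  · obtain ⟨p, ⟨hp, hp'⟩, hv0⟩ := hv 0 trivial
    have : Fact p.Prime := ⟨hp⟩
    simp only [coe_union, Set.mem_union, mem_coe, not_or] at hp'
    have h1 := ev_sub_zero (hS' p hp'.2 ℤ_[p]) (hS p hp'.1 ℤ_[p]) hB' e
    rw [Nat.card_congr PadicInt.residueField.toEquiv, Nat.card_zmod] at h1
    have h2 : (MvPolynomial.aeval (R := ℚ) ![(p : LaurentSeries ℚ), YY]).toRingHom =
        (algebraMap (Polynomial ℚ) (LaurentSeries ℚ)).comp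
          (MvPolynomial.aeval (R := ℚ) ![(p : Polynomial ℚ), Polynomial.X]).toRingHom := by
      refine MvPolynomial.ringHom_ext' (RingHom.ext_rat _ _) fun i => ?_
      fin_cases i
      · simp
      · simp [Polynomial.algebraMap_hahnSeries_apply]
    have h3 : MvPolynomial.aeval ![(p : Polynomial ℚ), Polynomial.X] A = 0 :=
      Polynomial.algebraMap_hahnSeries_injective ℤ
        (((RingHom.congr_fun h2 A).symm.trans h1).trans (map_zero _).symm)
    have h4 : MvPolynomial.eval v = (Polynomial.evalRingHom (v 1)).comp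
        (MvPolynomial.aeval (R := ℚ) ![(p : Polynomial ℚ), Polynomial.X]).toRingHom := by
      refine MvPolynomial.ringHom_ext' (RingHom.ext_rat _ _) fun i => ?_
      fin_cases i
      · simp [← hv0]
      · simp
    rw [h4]
    simp [h3]

section lead

variable {K : Type} [Field K]

/-- The Laurent series `T` has a pole of order at most `k`, with coefficient `c`. -/
def Lead (k : ℕ) (T : LaurentSeries K) (c : K) : Prop :=
  ∃ P : PowerSeries K, ((PowerSeries.X : PowerSeries K) : LaurentSeries K) ^ k * T = P ∧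
    PowerSeries.constantCoeff P = c

lemma Lead.coeff {k : ℕ} {T : LaurentSeries K} {c : K} (h : Lead k T c) :
    T.coeff (-(k : ℤ)) = c := by
  obtain ⟨P, h1, rfl⟩ := h
  have := congrArg (fun T : LaurentSeries K => T.coeff (-(k : ℤ) + k)) h1
  simp only [← map_pow, HahnSeries.ofPowerSeries_X_pow, HahnSeries.coeff_single_mul_add,
    one_mul] at this
  rw [this, neg_add_cancel, ← PowerSeries.coeff_zero_eq_constantCoeff_apply]
  exact LaurentSeries.coeff_coe_powerSeries P 0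

lemma Lead.add {k : ℕ} {T T' : LaurentSeries K} {c c' : K} (h : Lead k T c) (h' : Lead k T' c') :
    Lead k (T + T') (c + c') := by
  obtain ⟨P, h1, rfl⟩ := h
  obtain ⟨P', h2, rfl⟩ := h'
  exact ⟨P + P', by rw [mul_add, h1, h2, map_add], map_add _ _ _⟩

lemma Lead.mul {k k' : ℕ} {T T' : LaurentSeries K} {c c' : K} (h : Lead k T c)
    (h' : Lead k' T' c') : Lead (k + k') (T * T') (c * c') := by
  obtain ⟨P, h1, rfl⟩ := h
  obtain ⟨P', h2, rfl⟩ := h'
  exact ⟨P * P', by rw [pow_add, mul_mul_mul_comm, h1, h2, map_mul], map_mul _ _ _⟩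

lemma lead_one (k : ℕ) : Lead k (1 : LaurentSeries K) (0 ^ k) :=
  ⟨PowerSeries.X ^ k, by simp, by simp⟩

lemma coe_inv' {P : PowerSeries K} (h : PowerSeries.constantCoeff P ≠ 0) :
    ((P⁻¹ : PowerSeries K) : LaurentSeries K) = (P : LaurentSeries K)⁻¹ :=
  eq_inv_of_mul_eq_one_right (by rw [← map_mul, PowerSeries.mul_inv_cancel P h, map_one])

lemma lead_fac {x y : PowerSeries K} {σ : K} (hx0 : PowerSeries.constantCoeff x = 1)
    (hx1 : PowerSeries.coeff 1 x = 1) (hy0 : PowerSeries.constantCoeff y = 1)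
    (hy1 : PowerSeries.coeff 1 y = -σ) {ab : ℕ × ℕ} (h : ab.2 * σ - ab.1 ≠ 0) :
    1 - (x : LaurentSeries K) ^ ab.1 * (y : LaurentSeries K) ^ ab.2 ≠ 0 ∧
    Lead 1 (fac (x : LaurentSeries K) y ab) (ab.2 * σ - ab.1)⁻¹ := by
  set u := x ^ ab.1 * y ^ ab.2 with hu
  have hu0 : PowerSeries.constantCoeff u = 1 := by simp [hu, hx0, hy0]
  obtain ⟨w, hw, hw0⟩ : ∃ w, 1 - u = PowerSeries.X * w ∧
      PowerSeries.constantCoeff w = ab.2 * σ - ab.1 := by
    refine ⟨PowerSeries.mk fun n => PowerSeries.coeff (n + 1) (1 - u), ?_, ?_⟩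
    · have := PowerSeries.eq_X_mul_shift_add_const (1 - u)
      rwa [map_sub PowerSeries.constantCoeff, hu0, map_one, sub_self, map_zero, add_zero] at this
    · simp [hu, PowerSeries.coeff_one_mul, PowerSeries.coeff_one_pow, hx0, hx1, hy0, hy1,
        PowerSeries.coeff_one]
      ring
  have e : 1 - (x : LaurentSeries K) ^ ab.1 * (y : LaurentSeries K) ^ ab.2 =
      ((PowerSeries.X : PowerSeries K) : LaurentSeries K) * (w : LaurentSeries K) := by
    rw [← map_mul, ← hw, map_sub, map_one, map_mul, map_pow, map_pow]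
  have hX : ((PowerSeries.X : PowerSeries K) : LaurentSeries K) ≠ 0 := fun e =>
    PowerSeries.X_ne_zero (HahnSeries.ofPowerSeries_injective (e.trans (map_zero _).symm))
  have hw' : (w : LaurentSeries K) ≠ 0 := fun e => h (by
    rw [← hw0, HahnSeries.ofPowerSeries_injective (e.trans (map_zero _).symm), map_zero])
  refine ⟨e ▸ mul_ne_zero hX hw', u * w⁻¹, ?_, by simp [hu0, hw0]⟩
  rw [fac, e, map_mul, coe_inv' (hw0 ▸ h), hu, map_mul, map_pow, map_pow]
  field_simp

lemma lead_term {x y : PowerSeries K} {σ : K} (hx0 : PowerSeries.constantCoeff x = 1)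
    (hx1 : PowerSeries.coeff 1 x = 1) (hy0 : PowerSeries.constantCoeff y = 1)
    (hy1 : PowerSeries.coeff 1 y = -σ) {t : ℤ × List (ℕ × ℕ)}
    (h : ∀ ab ∈ t.2, ab.2 * σ - ab.1 ≠ 0) {r : ℕ} (hr : t.2.length ≤ r) :
    Lead r (term (x : LaurentSeries K) y t)
      (0 ^ (r - t.2.length) * (t.2.map fun ab => (ab.2 * σ - ab.1)⁻¹).prod) := by
  obtain ⟨e, l⟩ := t
  have h1 : Lead 0 ((x : LaurentSeries K) ^ e) 1 := by
    obtain ⟨n, rfl | rfl⟩ := e.eq_nat_or_neg
    · exact ⟨x ^ n, by simp, by simp [hx0]⟩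
    · exact ⟨(x ^ n)⁻¹, by rw [coe_inv' (by simp [hx0])]; simp, by simp [hx0]⟩
  have h2 : Lead l.length (l.map (fac (x : LaurentSeries K) y)).prod
      (l.map fun ab => (ab.2 * σ - ab.1)⁻¹).prod := by
    clear hr
    induction l with
    | nil => simpa using lead_one (K := K) 0
    | cons ab l ih =>
      simp only [List.map_cons, List.prod_cons, List.length_cons, add_comm l.length]
      exact (lead_fac hx0 hx1 hy0 hy1 (h ab List.mem_cons_self)).2.mul
        (ih fun c hc => h c (List.mem_cons_of_mem _ hc))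
  have := (lead_one (r - l.length)).mul (h1.mul h2)
  rwa [zero_add, Nat.sub_add_cancel hr, one_mul, one_mul] at this

lemma eval₂_inv_ne {p : Polynomial K} (hp : p ≠ 0) :
    p.eval₂ RatFunc.C (RatFunc.X⁻¹ : RatFunc K) ≠ 0 := fun h =>
  RatFunc.transcendental_X (IsAlgebraic.inv_iff.1 ⟨p, hp, h⟩)

/-- The substitution of `1 / s` for `s`. -/
noncomputable def rho (K : Type) [Field K] : RatFunc K →+* RatFunc K where
  toFun := RatFunc.eval RatFunc.C RatFunc.X⁻¹
  map_one' := RatFunc.eval_one _ _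
  map_zero' := RatFunc.eval_zero _ _
  map_mul' _ _ := RatFunc.eval_mul _ _ (eval₂_inv_ne (RatFunc.denom_ne_zero _))
    (eval₂_inv_ne (RatFunc.denom_ne_zero _))
  map_add' _ _ := RatFunc.eval_add _ _ (eval₂_inv_ne (RatFunc.denom_ne_zero _))
    (eval₂_inv_ne (RatFunc.denom_ne_zero _))

lemma rho_X : rho K RatFunc.X = RatFunc.X⁻¹ := RatFunc.eval_X _ _

end lead

section val

variable {Z Z' : RatFunc ℚ} {t v v' : ℚ}

lemma val_ne {D : Polynomial ℚ} (h : D.eval t ≠ 0) : algebraMap _ (RatFunc ℚ) D ≠ 0 :=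
  RatFunc.algebraMap_ne_zero fun e => h (by rw [e, Polynomial.eval_zero])

lemma ValueAt.add (h : ValueAt Z t v) (h' : ValueAt Z' t v') : ValueAt (Z + Z') t (v + v') := by
  obtain ⟨A, B, rfl, h1, rfl⟩ := h
  obtain ⟨A', B', rfl, h2, rfl⟩ := h'
  refine ⟨A * B' + B * A', B * B', ?_, by simp [h1, h2], ?_⟩
  · rw [div_add_div _ _ (val_ne h1) (val_ne h2), map_add, map_mul, map_mul, map_mul]
  · rw [div_add_div _ _ h1 h2]
    simp

lemma ValueAt.mul (h : ValueAt Z t v) (h' : ValueAt Z' t v') : ValueAt (Z * Z') t (v * v') := by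
  obtain ⟨A, B, rfl, h1, rfl⟩ := h
  obtain ⟨A', B', rfl, h2, rfl⟩ := h'
  exact ⟨A * A', B * B', by rw [div_mul_div_comm, map_mul, map_mul], by simp [h1, h2],
    by rw [div_mul_div_comm]; simp⟩

lemma val_sum {A : Type} {T : Multiset A} {f : A → RatFunc ℚ} {g : A → ℚ}
    (h : ∀ a ∈ T, ValueAt (f a) t (g a)) : ValueAt (T.map f).sum t (T.map g).sum := by
  induction T using Multiset.induction with
  | empty => exact ⟨0, 1, by simp⟩
  | cons a T ih =>
    simp only [Multiset.map_cons, Multiset.sum_cons]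
    exact (h a (Multiset.mem_cons_self _ _)).add (ih fun s hs => h s (Multiset.mem_cons_of_mem hs))

lemma val_prod {A : Type} {l : List A} {u : RatFunc ℚ} {f : A → RatFunc ℚ} {g : A → ℚ}
    (h : ∀ a ∈ l, ValueAt (u * f a) t (g a)) :
    ValueAt (u ^ l.length * (l.map f).prod) t (l.map g).prod := by
  induction l with
  | nil => exact ⟨1, 1, by simp⟩
  | cons a l ih =>
    simp only [List.map_cons, List.prod_cons, List.length_cons, pow_succ', mul_mul_mul_comm u]
    exact (h a List.mem_cons_self).mul (ih fun c hc => h c (List.mem_cons_of_mem _ hc))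

end val

lemma lin_ne {a b : ℕ} (hb : 1 ≤ b) : (b : RatFunc ℚ) * RatFunc.X - (a : RatFunc ℚ) ≠ 0 := by
  have := val_ne (t := (a + 1 : ℚ) / b)
    (D := (b : Polynomial ℚ) * Polynomial.X - (a : Polynomial ℚ)) (by
    have : (b : ℚ) ≠ 0 := by positivity
    simp [mul_div_cancel₀ _ this])
  rwa [map_sub, map_mul, map_natCast, map_natCast, RatFunc.algebraMap_X] at this

theorem both_values {r : ℕ} {T : Multiset (ℤ × List (ℕ × ℕ))}
    (h1 : ∀ t ∈ T, t.2.length ≤ r ∧ ∀ ab ∈ t.2, 1 ≤ ab.2) (h2 : ∃ t ∈ T, t.2.length = r) :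
    ∃ v : ℚ, 0 < v ∧ BothValues r (T.map (term vX vY)).sum v := by
  have hx0 : PowerSeries.constantCoeff (1 + PowerSeries.X : PowerSeries (RatFunc ℚ)) = 1 := by simp
  have hx1 : PowerSeries.coeff 1 (1 + PowerSeries.X : PowerSeries (RatFunc ℚ)) = 1 := by
    simp [PowerSeries.coeff_one]
  have hy0 := PowerSeries.binomialSeries_constantCoeff (A := RatFunc ℚ) (-RatFunc.X : RatFunc ℚ)
  have hy1 : PowerSeries.coeff 1 (PowerSeries.binomialSeries (RatFunc ℚ)
      (-RatFunc.X : RatFunc ℚ)) = -RatFunc.X := by simp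
  have hX : (RatFunc.X : RatFunc ℚ) ≠ 0 := RatFunc.X_ne_zero
  have hgeo : ∀ b : ℕ, 1 ≤ b → algebraMap (Polynomial ℚ) (RatFunc ℚ)
      (∑ i ∈ range b, Polynomial.X ^ i) ≠ 0 := fun b hb =>
    val_ne (t := 1) (by simp [Polynomial.eval_finsetSum]; omega)
  have h1X : (1 - RatFunc.X : RatFunc ℚ) ≠ 0 := by
    have := val_ne (t := 0) (D := 1 - Polynomial.X) (by simp)
    rwa [map_sub, map_one, RatFunc.algebraMap_X] at this
  have hred : ∀ a b : ℕ, (1 : RatFunc ℚ) - 1 ^ a * RatFunc.X ^ b = algebraMap (Polynomial ℚ)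
      (RatFunc ℚ) (∑ i ∈ range b, Polynomial.X ^ i) * (1 - RatFunc.X) := fun a b => by
    simp [geom_sum_mul_neg]
  refine ⟨(T.map fun t => 0 ^ (r - t.2.length) * (t.2.map fun ab => (ab.2 : ℚ)⁻¹).prod).sum, ?_,
    (T.map fun t => 0 ^ (r - t.2.length) *
      (t.2.map fun ab => ((ab.2 : RatFunc ℚ) * RatFunc.X - (ab.1 : RatFunc ℚ))⁻¹).prod).sum,
    (T.map (term 1 RatFunc.X)).sum, ⟨_, ev_sum ?_ fun t ht ab hab =>
      (lead_fac hx0 hx1 hy0 hy1 (lin_ne ((h1 t ht).2 ab hab))).1, (Lead.coeff ?_).symm⟩,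
    ev_sum one_ne_zero fun t ht ab hab => ?_, ?_, ?_⟩
  · obtain ⟨t, ht, h3⟩ := h2
    have hp : ∀ t ∈ T, 0 < (t.2.map fun ab : ℕ × ℕ => (ab.2 : ℚ)⁻¹).prod := fun t ht =>
      List.prod_pos fun a ha => by
        obtain ⟨ab, hab, rfl⟩ := List.mem_map.1 ha
        have := (h1 t ht).2 ab hab
        positivity
    refine lt_of_lt_of_le ?_ (Multiset.single_le_sum (fun a ha => ?_) _
      (Multiset.mem_map_of_mem _ ht))
    · simpa [h3] using hp t ht
    · obtain ⟨s, hs, rfl⟩ := Multiset.mem_map.1 ha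
      exact mul_nonneg (by positivity) (hp s hs).le
  · intro e
    have := HahnSeries.ofPowerSeries_injective (e.trans (map_zero _).symm)
    simp [this] at hx0
  · clear h2
    induction T using Multiset.induction with
    | empty => exact ⟨0, by simp⟩
    | cons t T ih =>
      simp only [Multiset.map_cons, Multiset.sum_cons]
      have := h1 t (Multiset.mem_cons_self _ _)
      exact (lead_term hx0 hx1 hy0 hy1 (fun ab hab => lin_ne (this.2 ab hab)) this.1).add
        (ih fun s hs => h1 s (Multiset.mem_cons_of_mem hs))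
  · rw [hred]
    exact mul_ne_zero (hgeo _ ((h1 t ht).2 ab hab)) h1X
  · change ValueAt (_ * rho ℚ _) _ _
    rw [map_multiset_sum, Multiset.map_map, ← Multiset.sum_map_mul_left]
    refine val_sum fun t ht => ?_
    rcases (h1 t ht).1.eq_or_lt with h | h
    · simp only [← h, Nat.sub_self, pow_zero, one_mul, Function.comp, map_list_prod, List.map_map]
      refine val_prod fun ab hab => ⟨1, (ab.2 : Polynomial ℚ) - (ab.1 : Polynomial ℚ) * Polynomial.X, ?_, ?_, ?_⟩
      · simp only [Function.comp, map_inv₀, map_sub, map_mul, map_natCast, rho_X, map_one,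
          RatFunc.algebraMap_X, one_div, ← mul_inv]
        congr 1
        field_simp
      · have := (h1 t ht).2 ab hab
        simp
        omega
      · simp
    · exact ⟨0, 1, by simp [Nat.sub_ne_zero_of_lt h]⟩
  · rw [← Multiset.sum_map_mul_left]
    refine val_sum fun t ht => ?_
    have h3 : ValueAt ((1 - RatFunc.X) ^ (r - t.2.length)) 1 (0 ^ (r - t.2.length)) :=
      ⟨(1 - Polynomial.X) ^ (r - t.2.length), 1, by simp⟩
    have := h3.mul (val_prod (l := t.2) (u := 1 - RatFunc.X) (f := fac 1 RatFunc.X)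
      (g := fun ab => (ab.2 : ℚ)⁻¹) fun ab hab =>
        ⟨Polynomial.X ^ ab.2, ∑ i ∈ range ab.2, Polynomial.X ^ i, by
          have := hgeo _ ((h1 t ht).2 ab hab)
          rw [fac, hred, map_pow, RatFunc.algebraMap_X]
          field_simp
          simp, by
          have := (h1 t ht).2 ab hab
          simp [Polynomial.eval_finsetSum]
          omega, by simp [Polynomial.eval_finsetSum]⟩)
    rw [← mul_assoc, ← pow_add, Nat.sub_add_cancel (h1 t ht).1] at this
    rwa [term, one_zpow, one_mul]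

/-- The span of the brackets with degree one elements. -/
noncomputable def brk (R : Type) [CommRing R] (d : ℕ) (Λ : Submodule R (FreeLieAlgebra R (Fin d))) :
    Submodule R (FreeLieAlgebra R (Fin d)) :=
  Submodule.span R {z | ∃ x ∈ Λ, ∃ y ∈ piece R d 0, z = ⁅x, y⁆}

lemma brk_le {R : Type} [CommRing R] {d : ℕ} {Λ Λ' : Submodule R (FreeLieAlgebra R (Fin d))} :
    brk R d Λ ≤ Λ' ↔ ∀ x ∈ Λ, ∀ y ∈ piece R d 0, ⁅x, y⁆ ∈ Λ' :=
  Submodule.span_le.trans ⟨fun h x hx y hy => h ⟨x, hx, y, hy, rfl⟩,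
    fun h _ ⟨x, hx, y, hy, e⟩ => e ▸ h x hx y hy⟩

theorem main {c d : ℕ} {k : ℕ → ℕ} {θ : ∀ i, (Fin (k i) → ℕ) → Fin (k (i + 1)) → ℕ}
    (hθ : ∀ i (φ : ℕ → ℕ), Monotone φ → ∀ ν, θ i (φ ∘ ν) = φ ∘ θ i ν)
    (hr : Fintype.card (PP k c) = rk c d)
    (H : ∀ (R : Type) [CommRing R] [IsDomain R] (ϖ : R),
      Nonempty (piece R d 0 ≃ₗ[R] (Fin (k 0) → R)) ∧
      ∀ i, i + 1 < c → ∀ (g : piece R d i ≃ₗ[R] (Fin (k i) → R)) ν,
        ∃ g' : piece R d (i + 1) ≃ₗ[R] (Fin (k (i + 1)) → R),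
          brk R d (DL ϖ g ν) = DL ϖ g' (θ i ν)) :
    ∃ W : RatXY, Uniform c d W ∧ (∀ W', Uniform c d W' → W' = W) ∧
      ∃ v : ℚ, 0 < v ∧ BothValues (rk c d) W v := by
  obtain ⟨T, h1, h2, h3⟩ := zeta_terms hθ c
  rw [hr] at h1 h2
  have hU : Uniform c d (T.map (term vX vY)).sum := by
    refine ⟨∅, fun p _ _ o _ _ _ _ _ _ => ?_⟩
    have : FaithfulSMul ℤ_[p] o := by
      rw [faithfulSMul_iff_algebraMap_injective, injective_iff_map_eq_zero]
      intro a ha
      by_contra h0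
      rw [PadicInt.unitCoeff_spec h0, map_mul, map_pow, map_natCast] at ha
      exact mul_ne_zero ((PadicInt.unitCoeff h0).isUnit.map _).ne_zero
        (pow_ne_zero _ (Nat.cast_ne_zero.2 (Fact.out : p.Prime).ne_zero)) ha
    have : Finite (IsLocalRing.ResidueField o) := IsLocalRing.ResidueField.finite_of_finite
      (R := ℤ_[p]) (Finite.of_equiv _ PadicInt.residueField.toEquiv.symm)
    have hq0 : Nat.card (IsLocalRing.ResidueField o) ≠ 0 := Nat.card_pos.ne'
    obtain ⟨ϖ, hϖ⟩ := IsDiscreteValuationRing.exists_irreducible o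
    have hq : Nat.card (o ⧸ Ideal.span {ϖ}) = Nat.card (IsLocalRing.ResidueField o) := by
      rw [← hϖ.maximalIdeal_eq]; rfl
    obtain ⟨⟨g₀⟩, H'⟩ := H o ϖ
    have hz : zetaSeries o c d (Nat.card (IsLocalRing.ResidueField o)) = _ := congrArg
      PowerSeries.mk (funext fun n => congrArg (Nat.cast : ℕ → ℚ)
        (Eq.trans (by simp only [idealCount, brk_le]) (count hϖ hq hq0 g₀ c H' n)))
    rw [hz, h3 _ hq0, ← map_natCast (HahnSeries.C : ℚ →+* LaurentSeries ℚ)]
    exact ev_sum ((map_ne_zero _).2 (Nat.cast_ne_zero.2 hq0)) fun t ht ab hab =>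
      one_sub_ne ((h1 t ht).2 ab hab)
  exact ⟨_, hU, fun W' h => uniform_unique hU h, both_values h1 h2⟩

end Pool.Agent.P.MP_8598be_al
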