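import Pool.Agent.P.MP_8598be_al.Defs

/-!
Complete flags of graded ideals.
-/

namespace Pool.Agent.P.MP_8598be_al

/-- The number of complete flags of graded ideals of the free nilpotent Lie algebra over `F`:
ascending chains of tuples of subspaces of the homogeneous parts of degrees `1, …, c`, closed under
bracketing with degree one, the `j`-th tuple having total dimension `j`. -/
noncomputable def idealFlags (F : Type) [Field F] (c d : ℕ) : ℕ :=
  Nat.card {Λ : Fin (rk c d + 1) → Fin c → Submodule F (FreeLieAlgebra F (Fin d)) //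
    Monotone Λ ∧ ∀ j, (∀ i, Λ j i ≤ piece F d i) ∧
      (∀ i i' : Fin c, i'.val = i.val + 1 → ∀ x ∈ Λ j i, ∀ y ∈ piece F d 0, ⁅x, y⁆ ∈ Λ j i') ∧
      ∑ i, Module.finrank F (Λ j i) = j}

end Pool.Agent.P.MP_8598be_al
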