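import Pool.Agent.P.MP_8598be_al.Values

/-!
Brackets of diagonal lattices in low degrees of the free Lie algebra.
-/

namespace Pool.Agent.P.MP_8598be_al

open Finset Submodule

variable {R : Type} [CommRing R]

section general

variable {L : Type} [AddCommGroup L] [Module R L] {F : Submodule R L} {ι : Type} [Fintype ι]
  [DecidableEq ι]

/-- The basis attached to a trivialisation. -/
def bas (g : F ≃ₗ[R] (ι → R)) (j : ι) : L := g.symm (Pi.single j 1)

omit [Fintype ι] in
lemma bas_mem (g : F ≃ₗ[R] (ι → R)) (j : ι) : bas g j ∈ F := (g.symm _).2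

lemma DL_eq_span (ϖ : R) (g : F ≃ₗ[R] (ι → R)) (ν : ι → ℕ) :
    DL ϖ g ν = span R (Set.range fun j => ϖ ^ ν j • bas g j) := by
  have e : ∀ j (a : R), (F.subtype ∘ₗ g.symm.toLinearMap) (Pi.single j a) = a • bas g j := by
    intro j a
    rw [← mul_one a, ← smul_eq_mul, Pi.single_smul', map_smul, smul_eq_mul, mul_one]
    rfl
  refine le_antisymm ?_ (span_le.2 ?_)
  · rintro _ ⟨y, hy, rfl⟩
    rw [← univ_sum_single y, map_sum]
    refine sum_mem fun j _ => ?_
    obtain ⟨z, hz⟩ := mem_D.1 hy j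
    rw [e, hz, mul_comm, mul_smul]
    exact smul_mem _ _ (subset_span ⟨j, rfl⟩)
  · rintro _ ⟨j, rfl⟩
    refine ⟨Pi.single j (ϖ ^ ν j), mem_D.2 fun l => ?_, e j _⟩
    by_cases hl : l = j
    · subst hl; simp
    · simp [Pi.single_eq_of_ne hl]

lemma span_bas (g : F ≃ₗ[R] (ι → R)) : F = span R (Set.range (bas g)) := by
  have := DL_eq_span 1 g 0
  simp only [one_pow, one_smul] at this
  exact (eq_DL le_rfl fun x => iff_of_true x.2 (mem_D.2 fun _ => by simp)).trans this

lemma exists_equiv [IsDomain R] {f e : ι → L} (hf : F = span R (Set.range f))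
    (he : LinearIndependent R e) (heF : ∀ j, e j ∈ F) :
    ∃ g : F ≃ₗ[R] (ι → R), bas g = f := by
  have hfF : ∀ j, f j ∈ F := fun j => hf ▸ subset_span ⟨j, rfl⟩
  have hsp : ⊤ ≤ span R (Set.range fun j => (⟨f j, hfF j⟩ : F)) := by
    rintro ⟨x, hx⟩ -
    refine (F.subtype_injective.mem_set_image).1 ?_
    rw [← map_coe, ← span_image, ← Set.range_comp]
    exact hf ▸ hx
  have : Module.Finite R F := Module.finite_def.2
    (top_le_iff.1 hsp ▸ fg_span (Set.finite_range _))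
  have h1 : LinearIndependent R fun j => (⟨e j, heF j⟩ : F) :=
    LinearIndependent.of_comp F.subtype he
  refine ⟨(Module.Basis.mk (linearIndependent_of_top_le_span_of_card_le_finrank hsp
    h1.fintype_card_le_finrank) hsp).equivFun, funext fun j => ?_⟩
  simp [bas, Pi.single_apply]

end general

variable {d : ℕ}

lemma brk_span {ι κ : Type} (a : ι → FreeLieAlgebra R (Fin d)) {u : κ → FreeLieAlgebra R (Fin d)}
    (hu : piece R d 0 = span R (Set.range u)) :
    brk R d (span R (Set.range a)) = span R (Set.range fun p : ι × κ => ⁅a p.1, u p.2⁆) := by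
  refine le_antisymm (brk_le.2 fun x hx y hy => ?_) (span_le.2 ?_)
  · rw [hu] at hy
    induction hx using span_induction with
    | zero => simp
    | add _ _ _ _ h1 h2 => rw [add_lie]; exact add_mem h1 h2
    | smul c _ _ h => rw [smul_lie]; exact smul_mem _ _ h
    | mem x hx =>
      induction hy using span_induction with
      | zero => simp
      | add _ _ _ _ h1 h2 => rw [lie_add]; exact add_mem h1 h2
      | smul c _ _ h => rw [lie_smul]; exact smul_mem _ _ h
      | mem y hy =>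
        obtain ⟨i, rfl⟩ := hx
        obtain ⟨k, rfl⟩ := hy
        exact subset_span ⟨(i, k), rfl⟩
  · rintro _ ⟨p, rfl⟩
    exact subset_span ⟨_, subset_span ⟨p.1, rfl⟩, _, hu ▸ subset_span ⟨p.2, rfl⟩, rfl⟩

lemma lie_mem_piece {i : ℕ} {x y : FreeLieAlgebra R (Fin d)} (hx : x ∈ piece R d i)
    (hy : y ∈ piece R d 0) : ⁅x, y⁆ ∈ piece R d (i + 1) := subset_span ⟨x, hx, y, hy, rfl⟩

lemma of_mem (k : Fin d) : FreeLieAlgebra.of R k ∈ piece R d 0 := subset_span ⟨k, rfl⟩

lemma step [IsDomain R] (ϖ : R) {i : ℕ} {ι κ : Type} [Fintype ι] [DecidableEq ι] [Fintype κ]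
    [DecidableEq κ] (g : piece R d i ≃ₗ[R] (ι → R)) {θ : (ι → ℕ) → κ → ℕ} (h0 : θ 0 = 0)
    {f e : κ → FreeLieAlgebra R (Fin d)} (he : LinearIndependent R e)
    (heF : ∀ l, e l ∈ piece R d (i + 1))
    (h : ∀ ν, brk R d (span R (Set.range fun j => ϖ ^ ν j • bas g j)) =
      span R (Set.range fun l => ϖ ^ θ ν l • f l)) (ν : ι → ℕ) :
    ∃ g' : piece R d (i + 1) ≃ₗ[R] (κ → R), brk R d (DL ϖ g ν) = DL ϖ g' (θ ν) := by
  have h1 := h 0
  simp only [h0, Pi.zero_apply, pow_zero, one_smul] at h1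
  obtain ⟨g', rfl⟩ := exists_equiv (F := piece R d (i + 1)) (f := f)
    ((congrArg (brk R d) (span_bas g)).trans h1) he heF
  exact ⟨g', by rw [DL_eq_span, DL_eq_span, h]⟩

attribute [local instance 100] LieRing.ofAssociativeRing

/-- The representation on functions of words. -/
noncomputable def rep (R : Type) [CommRing R] (d : ℕ) :
    FreeLieAlgebra R (Fin d) →ₗ⁅R⁆ Module.End R (List (Fin d) → R) :=
  FreeLieAlgebra.lift R fun k => LinearMap.funLeft R R (k :: ·)

lemma rep_of (k : Fin d) (f : List (Fin d) → R) (w : List (Fin d)) :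
    rep R d (FreeLieAlgebra.of R k) f w = f (k :: w) := by
  simp [rep, FreeLieAlgebra.lift_of_apply]

lemma rep_lie (a b : FreeLieAlgebra R (Fin d)) (f : List (Fin d) → R) (w : List (Fin d)) :
    rep R d ⁅a, b⁆ f w = rep R d a (rep R d b f) w - rep R d b (rep R d a f) w := by
  rw [LieHom.map_lie]
  rfl

lemma rep_sum {ι : Type} [Fintype ι] {c : ι → R} {e : ι → FreeLieAlgebra R (Fin d)}
    (h : ∑ i, c i • e i = 0) (w : List (Fin d)) :
    ∑ i, c i * rep R d (e i) (fun v => if v = w then 1 else 0) [] = 0 := by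
  simpa [map_sum, LinearMap.sum_apply] using
    congrArg (fun x => rep R d x (fun v => if v = w then 1 else 0) []) h

lemma indep_of : LinearIndependent R (FreeLieAlgebra.of R (X := Fin d)) :=
  Fintype.linearIndependent_iff.2 fun c h i => by simpa [rep_of] using rep_sum h [i]

lemma indep_pairs : LinearIndependent R fun p : {p : Fin d × Fin d // p.1 < p.2} =>
    ⁅FreeLieAlgebra.of R p.1.1, FreeLieAlgebra.of R p.1.2⁆ :=
  Fintype.linearIndependent_iff.2 fun c h p => by
    have := rep_sum h [p.1.2, p.1.1]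
    rw [sum_eq_single p] at this
    · simpa [rep_lie, rep_of, p.2.ne] using this
    · intro p' _ hp
      have h1 : ¬ (p'.1.2 = p.1.2 ∧ p'.1.1 = p.1.1) := fun h =>
        hp (Subtype.ext (Prod.ext h.2 h.1))
      have h2 : ¬ (p'.1.1 = p.1.2 ∧ p'.1.2 = p.1.1) := fun h =>
        lt_asymm p.2 (h.1 ▸ h.2 ▸ p'.2)
      simp [rep_of, h1, h2]
    · simp

lemma exists_equiv_zero [IsDomain R] : Nonempty (piece R d 0 ≃ₗ[R] (Fin d → R)) :=
  ⟨(exists_equiv rfl indep_of of_mem).choose⟩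

lemma smul_mem_of_le {M : Type} [AddCommGroup M] [Module R M] {N : Submodule R M} {ϖ : R}
    {a b : ℕ} {x : M} (h : ϖ ^ a • x ∈ N) (hab : a ≤ b) : ϖ ^ b • x ∈ N := by
  rw [← Nat.sub_add_cancel hab, pow_add, mul_smul]
  exact smul_mem _ _ h

lemma step_zero [IsDomain R] (ϖ : R) {m : ℕ} (ε : Fin m ≃ {p : Fin d × Fin d // p.1 < p.2})
    (g : piece R d 0 ≃ₗ[R] (Fin d → R)) (ν : Fin d → ℕ) :
    ∃ g' : piece R d 1 ≃ₗ[R] (Fin m → R),
      brk R d (DL ϖ g ν) = DL ϖ g' fun l => min (ν (ε l).1.1) (ν (ε l).1.2) := by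
  refine step ϖ g (θ := fun ν l => min (ν (ε l).1.1) (ν (ε l).1.2)) rfl
    (f := fun l => ⁅bas g (ε l).1.1, bas g (ε l).1.2⁆) (indep_pairs.comp ε ε.injective)
    (fun l => lie_mem_piece (of_mem _) (of_mem _)) (fun ν => ?_) ν
  rw [brk_span _ (span_bas g)]
  refine le_antisymm (span_le.2 ?_) (span_le.2 ?_)
  · rintro _ ⟨⟨i, j⟩, rfl⟩
    simp only [smul_lie, SetLike.mem_coe]
    rcases lt_trichotomy i j with h | rfl | h
    · exact smul_mem_of_le (subset_span ⟨ε.symm ⟨(i, j), h⟩, by simp⟩) (min_le_left _ (ν j))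
    · simp
    · rw [← lie_skew, smul_neg]
      exact neg_mem (smul_mem_of_le (subset_span ⟨ε.symm ⟨(j, i), h⟩, by simp⟩)
        (min_le_right (ν j) _))
  · rintro _ ⟨l, rfl⟩
    simp only [SetLike.mem_coe]
    rcases le_total (ν (ε l).1.1) (ν (ε l).1.2) with h | h
    · exact subset_span ⟨((ε l).1.1, (ε l).1.2), by simp [h]⟩
    · rw [← lie_skew, smul_neg]
      exact neg_mem (subset_span ⟨((ε l).1.2, (ε l).1.1), by simp [h]⟩)

lemma step_tensor [IsDomain R] (ϖ : R) {i m n : ℕ} (ε : Fin n ≃ Fin m × Fin d)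
    {e : Fin n → FreeLieAlgebra R (Fin d)} (he : LinearIndependent R e)
    (heF : ∀ l, e l ∈ piece R d (i + 1)) (g : piece R d i ≃ₗ[R] (Fin m → R)) (ν : Fin m → ℕ) :
    ∃ g' : piece R d (i + 1) ≃ₗ[R] (Fin n → R),
      brk R d (DL ϖ g ν) = DL ϖ g' fun l => ν (ε l).1 := by
  refine step ϖ g (θ := fun ν l => ν (ε l).1) rfl
    (f := fun l => ⁅bas g (ε l).1, FreeLieAlgebra.of R (ε l).2⁆) he heF (fun ν => ?_) ν
  rw [brk_span _ rfl, ← ε.surjective.range_comp]
  simp only [smul_lie, Function.comp_def]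

theorem class_two (d : ℕ) : ∃ W : RatXY, Uniform 2 d W ∧ (∀ W', Uniform 2 d W' → W' = W) ∧
    ∃ v : ℚ, 0 < v ∧ BothValues (rk 2 d) W v := by
  have hc : Fintype.card {p : Fin d × Fin d // p.1 < p.2} = d.choose 2 := by
    rw [Fintype.card_subtype, Fintype.card_product_filter_lt, Fintype.card_fin]
  have ε := (Fintype.equivFinOfCardEq hc).symm
  refine main (k := fun i => match i with | 0 => d | _ + 1 => d.choose 2)
    (θ := fun i => match i with
      | 0 => fun ν l => min (ν (ε l).1.1) (ν (ε l).1.2)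
      | _ + 1 => id) (fun i φ hφ ν => ?_) ?_ fun R _ _ ϖ => ⟨exists_equiv_zero, fun i hi => ?_⟩
  · cases i with
    | zero => exact funext fun l => (hφ.map_min).symm
    | succ i => rfl
  · have e1 : Finset.Icc 1 2 = {1, 2} := rfl
    have e2 : Nat.divisors 2 = {1, 2} := rfl
    have e3 : ((d : ℤ) ^ 2 - d) / 2 = (d.choose 2 : ℕ) := by
      rw [Nat.choose_two_right]
      cases d with
      | zero => rfl
      | succ d => push_cast; congr 1; ring
    simp [rk, e1, e2, Fin.sum_univ_two, ArithmeticFunction.moebius_apply_prime Nat.prime_two,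
      ← sub_eq_add_neg, e3]
  · obtain rfl : i = 0 := by omega
    exact step_zero ϖ ε

section five

/-- The first generator. -/
noncomputable abbrev gx (R : Type) [CommRing R] : FreeLieAlgebra R (Fin 2) := FreeLieAlgebra.of R 0

/-- The second generator. -/
noncomputable abbrev gy (R : Type) [CommRing R] : FreeLieAlgebra R (Fin 2) := FreeLieAlgebra.of R 1

/-- A basis in degree four. -/
noncomputable def b4 (R : Type) [CommRing R] : Fin 3 → FreeLieAlgebra R (Fin 2) :=
  ![⁅⁅⁅gx R, gy R⁆, gx R⁆, gx R⁆, ⁅⁅⁅gx R, gy R⁆, gx R⁆, gy R⁆, ⁅⁅⁅gx R, gy R⁆, gy R⁆, gy R⁆]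

lemma indep_five : LinearIndependent R fun p : Fin 3 × Fin 2 =>
    ⁅b4 R p.1, FreeLieAlgebra.of R p.2⁆ :=
  Fintype.linearIndependent_iff.2 fun c h => by
    have h0 := rep_sum h [0, 0, 0, 0, 1]
    have h1 := rep_sum h [0, 0, 1, 1, 0]
    have h2 := rep_sum h [0, 0, 0, 1, 1]
    have h3 := rep_sum h [1, 0, 0, 1, 1]
    have h4 := rep_sum h [0, 0, 1, 1, 1]
    have h5 := rep_sum h [0, 1, 1, 1, 1]
    simp only [Fintype.sum_prod_type, Fin.sum_univ_succ, b4, rep_lie, rep_of, Matrix.cons_val_zero,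
      Matrix.cons_val_succ] at h0 h1 h2 h3 h4 h5
    simp at h0 h1 h2 h3 h4 h5
    simp only [Prod.forall, Fin.forall_fin_succ]
    simp_all

lemma indep_four : LinearIndependent R (b4 R) := by
  have := indep_five (R := R).comp (fun j : Fin 3 => (j, 0)) (Prod.mk_left_injective _)
  exact LinearIndependent.of_comp (-LieAlgebra.ad R _ (gx R)) (by simpa [Function.comp_def])

lemma indep_three : LinearIndependent R fun k : Fin 2 =>
    ⁅⁅gx R, gy R⁆, FreeLieAlgebra.of R k⁆ := by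
  have := indep_four (R := R).comp ![1, 2] (by decide)
  refine LinearIndependent.of_comp (-LieAlgebra.ad R _ (gy R)) ?_
  have e : (b4 R ∘ ![1, 2]) = ⇑(-LieAlgebra.ad R _ (gy R)) ∘ fun k : Fin 2 =>
      ⁅⁅gx R, gy R⁆, FreeLieAlgebra.of R k⁆ := by
    funext k
    fin_cases k
    exacts [(lie_skew ⁅⁅gx R, gy R⁆, gx R⁆ (gy R)).symm,
      (lie_skew ⁅⁅gx R, gy R⁆, gy R⁆ (gy R)).symm]
  rw [e] at this
  exact this

lemma piece_one : piece R 2 1 = span R {⁅gx R, gy R⁆} := by
  refine le_antisymm ((brk_span (FreeLieAlgebra.of R) rfl).le.trans (span_le.2 ?_))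
    (span_le.2 (Set.singleton_subset_iff.2 (lie_mem_piece (of_mem _) (of_mem _))))
  rintro _ ⟨⟨i, j⟩, rfl⟩
  fin_cases i <;> fin_cases j
  · simp
  · exact subset_span rfl
  · simpa using neg_mem (mem_span_singleton_self (R := R) ⁅gx R, gy R⁆)
  · simp

lemma ad_inj {w : FreeLieAlgebra R (Fin 2)} (hw : w ∈ piece R 2 0)
    (h : ⁅⁅gx R, gy R⁆, w⁆ = 0) : w = 0 := by
  obtain ⟨c, rfl⟩ := (mem_span_range_iff_exists_fun R).1 hw
  simp only [lie_sum, lie_smul] at h
  simp [Fintype.linearIndependent_iff.1 indep_three c h]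

lemma exists_ad {v : FreeLieAlgebra R (Fin 2)} (hv : v ∈ piece R 2 2) :
    ∃ w ∈ piece R 2 0, ⁅⁅gx R, gy R⁆, w⁆ = v := by
  have : piece R 2 2 ≤ (piece R 2 0).map (LieAlgebra.ad R _ ⁅gx R, gy R⁆) := by
    refine brk_le.2 fun x hx y hy => ?_
    obtain ⟨a, rfl⟩ := mem_span_singleton.1 (piece_one.le hx)
    exact ⟨a • y, smul_mem _ _ hy, by simp⟩
  exact this hv

lemma step_two [IsDomain R] (ϖ : R) (g : piece R 2 2 ≃ₗ[R] (Fin 2 → R)) (ν : Fin 2 → ℕ) :
    ∃ g' : piece R 2 3 ≃ₗ[R] (Fin 3 → R),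
      brk R 2 (DL ϖ g ν) = DL ϖ g' ![ν 0, min (ν 0) (ν 1), ν 1] := by
  choose u hu0 hu using fun j => exists_ad (bas_mem g j)
  have hsp : piece R 2 0 = span R (Set.range u) := by
    refine le_antisymm (fun w hw => ?_) (span_le.2 (Set.range_subset_iff.2 hu0))
    obtain ⟨c, hc⟩ := (mem_span_range_iff_exists_fun R).1
      (span_bas g ▸ lie_mem_piece (lie_mem_piece (of_mem 0) (of_mem 1)) hw)
    refine (mem_span_range_iff_exists_fun R).2 ⟨c, sub_eq_zero.1 (ad_inj
      (sub_mem (sum_mem fun j _ => smul_mem _ _ (hu0 j)) hw) ?_)⟩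
    simp only [lie_sub, lie_sum, lie_smul, hu, hc, sub_self]
  have hrel : ⁅bas g 1, u 0⁆ = ⁅bas g 0, u 1⁆ := by
    obtain ⟨a, ha⟩ := mem_span_singleton.1 (piece_one.le (lie_mem_piece (hu0 0) (hu0 1)))
    rw [← hu, ← hu, lie_lie ⁅gx R, gy R⁆ (u 0), ← ha, lie_smul, lie_self, smul_zero, zero_sub,
      lie_skew]
  refine step ϖ g (θ := fun ν => ![ν 0, min (ν 0) (ν 1), ν 1]) (by decide)
    (f := ![⁅bas g 0, u 0⁆, ⁅bas g 0, u 1⁆, ⁅bas g 1, u 1⁆]) indep_four (fun l => ?_)
    (fun ν => ?_) ν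
  · fin_cases l <;>
      exact lie_mem_piece (lie_mem_piece (lie_mem_piece (of_mem _) (of_mem _)) (of_mem _)) (of_mem _)
  rw [brk_span _ hsp]
  refine le_antisymm (span_le.2 ?_) (span_le.2 ?_)
  · rintro _ ⟨⟨i, j⟩, rfl⟩
    simp only [smul_lie, SetLike.mem_coe]
    fin_cases i <;> fin_cases j
    · exact subset_span ⟨0, rfl⟩
    · exact smul_mem_of_le (subset_span ⟨1, rfl⟩) (min_le_left _ _)
    · exact hrel ▸ smul_mem_of_le (subset_span ⟨1, rfl⟩) (min_le_right _ _)
    · exact subset_span ⟨2, rfl⟩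
  · rintro _ ⟨l, rfl⟩
    fin_cases l
    · exact subset_span ⟨(0, 0), by simp⟩
    · rcases le_total (ν 0) (ν 1) with h | h
      · exact subset_span ⟨(0, 1), by simp [h]⟩
      · exact subset_span ⟨(1, 0), by simp [h, hrel]⟩
    · exact subset_span ⟨(1, 1), by simp⟩

theorem five_two : ∃ W : RatXY, Uniform 5 2 W ∧ (∀ W', Uniform 5 2 W' → W' = W) ∧
    ∃ v : ℚ, 0 < v ∧ BothValues (rk 5 2) W v := by
  have ε : Fin 1 ≃ {p : Fin 2 × Fin 2 // p.1 < p.2} := (Fintype.equivFinOfCardEq (by decide)).symm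
  refine main (k := fun i => match i with | 0 => 2 | 1 => 1 | 2 => 1 * 2 | 3 => 3 | _ + 4 => 3 * 2)
    (θ := fun i => match i with
      | 0 => fun ν l => min (ν (ε l).1.1) (ν (ε l).1.2)
      | 1 => fun ν l => ν (finProdFinEquiv.symm l).1
      | 2 => fun ν => ![ν 0, min (ν 0) (ν 1), ν 1]
      | 3 => fun ν l => ν (finProdFinEquiv.symm l).1
      | _ + 4 => id) (fun i φ hφ ν => ?_) ?_ fun R _ _ ϖ => ⟨exists_equiv_zero, fun i hi => ?_⟩
  · match i with
    | 0 => exact funext fun l => (hφ.map_min).symm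
    | 1 => rfl
    | 2 =>
      funext l
      fin_cases l
      exacts [rfl, (hφ.map_min).symm, rfl]
    | 3 => rfl
    | _ + 4 => rfl
  · rw [Fintype.card_sigma]
    have e1 : Finset.Icc 1 5 = {1, 2, 3, 4, 5} := rfl
    have e2 : Nat.divisors 2 = {1, 2} := rfl
    have e3 : Nat.divisors 3 = {1, 3} := rfl
    have e4 : Nat.divisors 4 = {1, 2, 4} := rfl
    have e5 : Nat.divisors 5 = {1, 5} := rfl
    have m4 : ArithmeticFunction.moebius 4 = 0 :=
      ArithmeticFunction.moebius_eq_zero_of_not_squarefree (by decide +kernel)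
    simp [rk, e1, e2, e3, e4, e5, m4, Fin.sum_univ_succ,
      ArithmeticFunction.moebius_apply_prime Nat.prime_two,
      ArithmeticFunction.moebius_apply_prime Nat.prime_three,
      ArithmeticFunction.moebius_apply_prime Nat.prime_five]
  · match i with
    | 0 => exact step_zero ϖ ε
    | 1 => exact step_tensor ϖ finProdFinEquiv.symm indep_three fun l =>
        lie_mem_piece (lie_mem_piece (of_mem _) (of_mem _)) (of_mem _)
    | 2 => exact step_two ϖ
    | 3 =>
      refine step_tensor ϖ finProdFinEquiv.symm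
        (indep_five.comp _ finProdFinEquiv.symm.injective) fun l => lie_mem_piece ?_ (of_mem _)
      generalize (finProdFinEquiv.symm l).1 = j
      fin_cases j <;> exact lie_mem_piece (lie_mem_piece (lie_mem_piece (of_mem _) (of_mem _))
        (of_mem _)) (of_mem _)
    | _ + 4 => omega

end five

end Pool.Agent.P.MP_8598be_al
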