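import Pool.Agent.P.MP_8598be_al.Count

/-!
Generating functions of order-invariant weights are finite sums of products of geometric series.
-/

namespace Pool.Agent.P.MP_8598be_al

open Finset

/-- A geometric series without constant term. -/
def fac {K : Type} [Field K] (x y : K) (ab : ℕ × ℕ) : K :=
  x ^ ab.1 * y ^ ab.2 / (1 - x ^ ab.1 * y ^ ab.2)

/-- A product of geometric series times a power of `x`. -/
def term {K : Type} [Field K] (x y : K) (t : ℤ × List (ℕ × ℕ)) : K :=
  x ^ t.1 * (t.2.map (fac x y)).prod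

variable {P : Type} [Fintype P] [DecidableEq P]

/-- The support. -/
def supp (ν : P → ℕ) : Finset P := univ.filter fun p => ν p ≠ 0

/-- The indicator function. -/
def chi (S : Finset P) : P → ℕ := fun p => if p ∈ S then 1 else 0

omit [DecidableEq P] in
lemma mem_supp {ν : P → ℕ} {p : P} : p ∈ supp ν ↔ ν p ≠ 0 := by simp [supp]

/-- The generating function of the functions with support `S`. -/
noncomputable def gen (x : ℚ) (Lf : (P → ℕ) → ℕ) (S : Finset P) (κ : (P → ℕ) → Option ℤ) :
    PowerSeries ℚ :=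
  PowerSeries.mk fun n => ∑ ν ∈ (piAntidiag univ n).filter fun ν => supp ν = S,
    (κ ν).elim 0 (x ^ ·) * x ^ Lf ν

lemma sum_chi (S : Finset P) : ∑ p, chi S p = S.card := by simp [chi]

lemma gen_rec (x : ℚ) {Lf : (P → ℕ) → ℕ} {g : Finset P → ℕ}
    (hL : ∀ S ν, supp ν ⊆ S → Lf (ν + chi S) = g S + Lf ν) (S : Finset P)
    (κ : (P → ℕ) → Option ℤ) :
    gen x Lf S κ = PowerSeries.X ^ S.card * (PowerSeries.C (x ^ g S) *
      ∑ S' ∈ S.powerset, gen x Lf S' fun ν => κ (ν + chi S)) := by
  ext n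
  have hle : ∀ ν : P → ℕ, supp ν = S → chi S ≤ ν := fun ν h p => by
    unfold chi
    split_ifs with hp
    · exact Nat.one_le_iff_ne_zero.2 (mem_supp.1 (h ▸ hp))
    · exact zero_le
  rw [PowerSeries.coeff_X_pow_mul', PowerSeries.coeff_C_mul, map_sum]
  simp only [gen, PowerSeries.coeff_mk]
  split_ifs with hn
  · rw [sum_fiberwise_eq_sum_filter, mul_sum]
    symm
    refine sum_bij' (fun ν _ => ν + chi S) (fun ν _ => ν - chi S) (fun ν hν => ?_)
      (fun ν hν => ?_) (fun ν _ => add_tsub_cancel_right _ _)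
      (fun ν hν => tsub_add_cancel_of_le (hle ν (mem_filter.1 hν).2)) fun ν hν => ?_
    · simp only [mem_filter, mem_piAntidiag, mem_univ, implies_true, and_true, mem_powerset]
        at hν ⊢
      refine ⟨?_, ?_⟩
      · have : ∑ p, ν p = n - S.card := hν.1
        simp only [Pi.add_apply, sum_add_distrib, sum_chi]
        omega
      · ext p
        have := @hν.2 p
        simp only [mem_supp, Pi.add_apply, chi] at this ⊢
        by_cases hp : p ∈ S <;> simp_all
    · simp only [mem_filter, mem_piAntidiag, mem_univ, implies_true, and_true, mem_powerset]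
        at hν ⊢
      refine ⟨?_, fun p hp => hν.2 ▸ mem_supp.2 fun h => mem_supp.1 hp (by simp [h])⟩
      have : ∑ p, ((ν - chi S) p + chi S p) = univ.sum ν :=
        congrArg univ.sum (tsub_add_cancel_of_le (hle ν hν.2))
      rw [sum_add_distrib, sum_chi, hν.1] at this
      exact eq_tsub_of_add_eq this
    · rw [hL S ν (mem_powerset.1 (mem_filter.1 hν).2), pow_add]
      ring
  · refine sum_eq_zero fun ν hν => absurd ?_ hn
    rw [← sum_chi, ← (mem_piAntidiag.1 (mem_filter.1 hν).1).1]
    exact sum_le_sum fun p _ => hle ν (mem_filter.1 hν).2 p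

/-- Invariance under strictly increasing changes of the positive values. -/
def OrdInv (κ : (P → ℕ) → Option ℤ) (S : Finset P) : Prop :=
  ∀ φ : ℕ → ℕ, StrictMono φ → φ 0 = 0 → ∀ ν, supp ν = S → κ (φ ∘ ν) = κ ν

/-- The formal variable. -/
noncomputable abbrev YY : LaurentSeries ℚ := ((PowerSeries.X : PowerSeries ℚ) : LaurentSeries ℚ)

lemma one_sub_ne {x : ℚ} {a b : ℕ} (hb : 1 ≤ b) :
    1 - (HahnSeries.C x : LaurentSeries ℚ) ^ a * YY ^ b ≠ 0 := by
  have : 1 - (HahnSeries.C x : LaurentSeries ℚ) ^ a * YY ^ b =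
      ((1 - PowerSeries.C x ^ a * PowerSeries.X ^ b : PowerSeries ℚ) : LaurentSeries ℚ) := by
    simp only [PowerSeries.coe_sub, PowerSeries.coe_one, PowerSeries.coe_mul, PowerSeries.coe_pow,
      PowerSeries.coe_C]
  rw [this]
  intro h
  have h1 := congrArg PowerSeries.constantCoeff
    (HahnSeries.ofPowerSeries_injective (h.trans (map_zero _).symm))
  simp [Nat.one_le_iff_ne_zero.1 hb] at h1

theorem gen_terms {Lf : (P → ℕ) → ℕ} {g : Finset P → ℕ}
    (hL : ∀ S ν, supp ν ⊆ S → Lf (ν + chi S) = g S + Lf ν) (S : Finset P) :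
    ∀ κ : (P → ℕ) → Option ℤ, OrdInv κ S → ∃ T : Multiset (ℤ × List (ℕ × ℕ)),
      (∀ t ∈ T, t.2.length ≤ S.card ∧ ∀ ab ∈ t.2, 1 ≤ ab.2) ∧
      ((∃ ν, supp ν = S ∧ Set.InjOn ν S ∧ κ ν ≠ none) → ∃ t ∈ T, t.2.length = S.card) ∧
      ∀ x : ℚ, (gen x Lf S κ : LaurentSeries ℚ) =
        (T.map (term (HahnSeries.C x : LaurentSeries ℚ) YY)).sum ∨ x = 0 := by
  induction S using Finset.strongInduction with
  | H S ih =>
  intro κ hκ
  rcases S.eq_empty_or_nonempty with rfl | hS
  · have h0 : ∀ ν : P → ℕ, supp ν = ∅ ↔ ν = 0 := fun ν => by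
      simp [supp, filter_eq_empty_iff, funext_iff]
    have hg : ∀ x : ℚ, gen x Lf ∅ κ = PowerSeries.C ((κ 0).elim 0 (x ^ ·) * x ^ Lf 0) := by
      intro x
      ext n
      simp only [gen, PowerSeries.coeff_mk, h0, PowerSeries.coeff_C]
      rw [sum_filter, sum_ite_eq']
      simp [eq_comm]
    cases h : κ 0 with
    | none =>
      refine ⟨0, by simp, fun ⟨ν, h1, _, h2⟩ => absurd ((h0 ν).1 h1 ▸ h) h2, fun x => Or.inl ?_⟩
      simp [hg, h]
    | some e =>
      refine ⟨{(e + Lf 0, [])}, by simp, by simp, fun x => or_iff_not_imp_right.2 fun hx => ?_⟩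
      rw [hg, h, PowerSeries.coe_C]
      simp only [Option.elim, term, Multiset.map_singleton, Multiset.sum_singleton, List.map_nil,
        List.prod_nil, mul_one]
      rw [← map_zpow₀, zpow_add₀ hx, zpow_natCast]
  · have hinv : ∀ S' ⊂ S, OrdInv (fun ν => κ (ν + chi S)) S' := by
      intro S' hS' φ h1 h2 ν h3
      have hs : supp (ν + chi S) = S := by
        ext p
        have := @hS'.1 p
        rw [← h3] at this
        simp only [mem_supp, Pi.add_apply, chi] at this ⊢
        by_cases hp : p ∈ S <;> simp_all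
      beta_reduce
      rw [← hκ (fun t => Nat.casesOn t 0 fun t => φ t + 1) (strictMono_nat_of_lt_succ fun t => by
        cases t with
        | zero => simp
        | succ t => simpa using h1 (Nat.lt_succ_self t)) rfl _ hs]
      congr 1
      funext p
      by_cases hp : p ∈ S
      · simp [chi, hp]
      · have : ν p = 0 := not_not.1 fun h => hp (hS'.1 (h3 ▸ mem_supp.2 h))
        simp [chi, hp, this, h2]
    choose T hT1 hT2 hT3 using fun S' : S.ssubsets =>
      ih S' (mem_ssubsets.1 S'.2) _ (hinv S' (mem_ssubsets.1 S'.2))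
    refine ⟨(∑ S', T S').map fun t => (t.1, (g S, S.card) :: t.2), fun t ht => ?_,
      fun ⟨ν, h1, h2, h3⟩ => ?_, fun x => or_iff_not_imp_right.2 fun hx => ?_⟩
    · obtain ⟨t, ht', rfl⟩ := Multiset.mem_map.1 ht
      obtain ⟨S', -, ht⟩ := Multiset.mem_sum.1 ht'
      refine ⟨Nat.succ_le_of_lt ((hT1 S' t ht).1.trans_lt (card_lt_card (mem_ssubsets.1 S'.2))),
        fun ab hab => ?_⟩
      rcases List.mem_cons.1 hab with rfl | hab
      exacts [hS.card_pos, (hT1 S' t ht).2 ab hab]
    · obtain ⟨j, hj, hmin⟩ := S.exists_min_image ν hS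
      have hpos : ν j ≠ 0 := mem_supp.1 (h1 ▸ hj)
      have hz : ∀ p ∉ S, ν p = 0 := fun p hp => not_not.1 fun h => hp (h1 ▸ mem_supp.2 h)
      obtain ⟨t, ht, h4⟩ := hT2 ⟨S.erase j, mem_ssubsets.2 (erase_ssubset hj)⟩
        ⟨fun p => ν p - ν j, by
          ext p
          rw [mem_supp, mem_erase]
          by_cases hp : p ∈ S
          · have := hmin p hp
            have := (h2.eq_iff hp hj).not
            simp only [hp, and_true]
            constructor <;> intro h
            · exact this.1 (by omega)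
            · have := this.2 h
              omega
          · simp [hp, hz p hp], fun p hp p' hp' h => by
          have := hmin p (mem_of_mem_erase hp)
          have := hmin p' (mem_of_mem_erase hp')
          exact h2 (mem_of_mem_erase hp) (mem_of_mem_erase hp') (by simp only at h; omega), by
          rw [← hκ (fun t => Nat.casesOn t 0 fun t => t + ν j) (strictMono_nat_of_lt_succ fun t => by
            cases t with
            | zero => simpa using Nat.pos_of_ne_zero hpos
            | succ t => simp) rfl]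
          · convert h3 using 2
            funext p
            by_cases hp : p ∈ S
            · simp [chi, hp, hmin p hp]
            · simp [chi, hp, hz p hp]
          · ext p
            by_cases hp : p ∈ S <;> simp [mem_supp, chi, hp, hz]⟩
      refine ⟨_, Multiset.mem_map_of_mem _ (Multiset.mem_sum.2 ⟨_, mem_univ _, ht⟩), ?_⟩
      rw [List.length_cons, h4, card_erase_add_one hj]
    · have h1 := gen_rec x hL S κ
      have h2 : gen x Lf S (fun ν => κ (ν + chi S)) = gen x Lf S κ := by
        ext n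
        simp only [gen, PowerSeries.coeff_mk]
        refine sum_congr rfl fun ν hν => ?_
        have hs := (mem_filter.1 hν).2
        rw [← hκ (fun t => Nat.casesOn t 0 fun t => t + 2) (strictMono_nat_of_lt_succ fun t => by
          cases t <;> simp) rfl ν hs]
        congr 3
        funext p
        have := hs ▸ mem_supp (ν := ν) (p := p)
        simp only [Pi.add_apply, chi, Function.comp, this]
        cases ν p <;> simp
      rw [← add_sum_erase _ _ (mem_powerset_self S), h2, ← ssubsets, ← sum_coe_sort] at h1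
      have h3 := congrArg (HahnSeries.ofPowerSeries ℤ ℚ) h1
      simp only [map_mul, map_add, map_sum, map_pow, PowerSeries.coe_C,
        fun S' => (hT3 S' x).resolve_right hx] at h3
      have h4 := one_sub_ne (x := x) (a := g S) hS.card_pos
      rw [Multiset.map_map]
      have h5 : ∀ t : ℤ × List (ℕ × ℕ), term (HahnSeries.C x : LaurentSeries ℚ) YY
          (t.1, (g S, S.card) :: t.2) = fac (HahnSeries.C x : LaurentSeries ℚ) YY (g S, S.card) *
            term (HahnSeries.C x : LaurentSeries ℚ) YY t := fun t => by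
        simp only [term, List.map_cons, List.prod_cons]
        ring
      simp only [Function.comp_def, h5]
      have h6 := map_sum (Multiset.sumAddMonoidHom.comp (Multiset.mapAddMonoidHom
        (term (HahnSeries.C x : LaurentSeries ℚ) YY))) T univ
      simp only [AddMonoidHom.comp_apply, Multiset.coe_mapAddMonoidHom,
        Multiset.coe_sumAddMonoidHom] at h6
      rw [Multiset.sum_map_mul_left, h6, fac, div_mul_eq_mul_div, eq_div_iff h4]
      linear_combination h3

open scoped Classical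

section inst

variable {ι : Type} [Fintype ι] [LinearOrder ι]

/-- The level-additive part of the dimension of a cell. -/
def lin (μ ν : ι → ℕ) : ℕ := ∑ j, ∑ l, min (ν l - ν j) (μ j - ν j)

/-- The correction term in the dimension of a cell. -/
noncomputable def cor (μ ν : ι → ℕ) : ℕ := ∑ j, ∑ l, if prec μ l j ∧ ν j < ν l then 1 else 0

lemma ex_add_cor {μ ν : ι → ℕ} (h : ν ≤ μ) : ex μ ν + cor μ ν = lin μ ν := by
  simp only [ex, cor, lin, ← sum_add_distrib]
  refine sum_congr rfl fun j _ => sum_congr rfl fun l _ => ?_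
  unfold eps
  split_ifs with h1
  · have : ν l ≤ μ l := h l
    have : μ l ≤ μ j := h1.1.elim le_of_lt fun h => h.1.le
    omega
  · rfl

omit [LinearOrder ι] in
lemma lin_strip (μ ν : ι → ℕ) : lin μ ν =
    lin ((min · 1) ∘ μ) ((min · 1) ∘ ν) + lin ((· - 1) ∘ μ) ((· - 1) ∘ ν) := by
  simp only [lin, ← sum_add_distrib, Function.comp]
  exact sum_congr rfl fun j _ => sum_congr rfl fun l _ => by omega

lemma cor_comp {φ : ℕ → ℕ} (hφ : StrictMono φ) (μ ν : ι → ℕ) :
    cor (φ ∘ μ) (φ ∘ ν) = cor μ ν := by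
  refine sum_congr rfl fun j _ => sum_congr rfl fun l _ => if_congr ?_ rfl rfl
  simp only [prec, Function.comp, hφ.lt_iff_lt, hφ.injective.eq_iff]

end inst

variable {k : ℕ → ℕ} {θ : ∀ i, (Fin (k i) → ℕ) → Fin (k (i + 1)) → ℕ} {c : ℕ}

lemma xt_comp {φ : ℕ → ℕ} (h0 : φ 0 = 0) (ν : PP k c → ℕ) :
    xt (φ ∘ ν) = fun i => φ ∘ xt ν i := by
  funext i j
  simp only [xt, Function.comp]
  split_ifs
  exacts [rfl, h0.symm]

lemma mu'_comp (hθ : ∀ i (φ : ℕ → ℕ), Monotone φ → ∀ ν, θ i (φ ∘ ν) = φ ∘ θ i ν)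
    {φ : ℕ → ℕ} (hφ : Monotone φ) (h0 : φ 0 = 0) (ν : ∀ i, Fin (k i) → ℕ) (i : ℕ) :
    mu' θ (fun i => φ ∘ ν i) i = φ ∘ mu' θ ν i := by
  cases i with
  | zero =>
    exact funext fun _ => (apply_sup_eq_sup_comp_of_linearOrder (s := univ) (f := ν 0) φ hφ h0).symm
  | succ i => exact hθ i φ hφ _

lemma exists_generic (hθ : ∀ i (φ : ℕ → ℕ), Monotone φ → ∀ ν, θ i (φ ∘ ν) = φ ∘ θ i ν) :
    ∃ ν : PP k c → ℕ, supp ν = univ ∧ Function.Injective ν ∧
      ∀ i, i < c → xt ν i ≤ mu' θ (xt ν) i := by
  set N := Fintype.card (PP k c)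
  set e := Fintype.equivFin (PP k c)
  refine ⟨fun p => (c - p.1) * N + e p + 1, eq_univ_of_forall fun p => mem_supp.2 (by simp),
    fun p p' h => e.injective (Fin.ext ?_), fun i hi => ?_⟩
  · have := congrArg (· % N) (Nat.succ.inj h)
    simp only [Nat.mul_add_mod_self_right] at this
    rwa [Nat.mod_eq_of_lt (e p).2, Nat.mod_eq_of_lt (e p').2] at this
  · cases i with
    | zero => exact fun j => le_sup (f := xt _ 0) (mem_univ j)
    | succ i =>
      intro j
      have h1 : xt (fun p : PP k c => (c - p.1) * N + e p + 1) i = (max ((c - i) * N)) ∘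
          xt (fun p : PP k c => (c - p.1) * N + e p + 1) i := by
        funext l
        simp only [xt, dif_pos (Nat.lt_of_succ_lt hi), Function.comp]
        omega
      change _ ≤ θ i _ j
      rw [h1, hθ i _ fun _ _ h => max_le_max le_rfl h]
      refine le_trans ?_ (le_max_left _ _)
      simp only [xt, dif_pos hi]
      have := (e ⟨⟨i + 1, hi⟩, j⟩).2
      rw [show c - i = c - (i + 1) + 1 by omega, add_mul]
      omega

theorem zeta_terms (hθ : ∀ i (φ : ℕ → ℕ), Monotone φ → ∀ ν, θ i (φ ∘ ν) = φ ∘ θ i ν) (c : ℕ) :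
    ∃ T : Multiset (ℤ × List (ℕ × ℕ)),
      (∀ t ∈ T, t.2.length ≤ Fintype.card (PP k c) ∧ ∀ ab ∈ t.2, 1 ≤ ab.2) ∧
      (∃ t ∈ T, t.2.length = Fintype.card (PP k c)) ∧ ∀ q : ℕ, q ≠ 0 →
        ((PowerSeries.mk fun n => ((∑ ν ∈ piAntidiag (univ : Finset (PP k c)) n,
          if ∀ i, i < c → xt ν i ≤ mu' θ (xt ν) i then
            q ^ ∑ i ∈ range c, ex (mu' θ (xt ν) i) (xt ν i) else 0 : ℕ) : ℚ) : PowerSeries ℚ) :
          LaurentSeries ℚ) = (T.map (term (q : LaurentSeries ℚ) YY)).sum := by
  set Lf : (PP k c → ℕ) → ℕ := fun ν => ∑ i ∈ range c, lin (mu' θ (xt ν) i) (xt ν i) with hLf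
  set κ : (PP k c → ℕ) → Option ℤ := fun ν => if ∀ i, i < c → xt ν i ≤ mu' θ (xt ν) i then
    some (-(∑ i ∈ range c, cor (mu' θ (xt ν) i) (xt ν i) : ℕ)) else none with hκ
  have hL : ∀ S ν, supp ν ⊆ S → Lf (ν + chi S) = Lf (chi S) + Lf ν := by
    intro S ν h
    have hz : ∀ p ∉ S, ν p = 0 := fun p hp => not_not.1 fun h' => hp (h (mem_supp.2 h'))
    have e1 : chi S = (min · 1) ∘ (ν + chi S) := funext fun p => by
      by_cases hp : p ∈ S <;> simp [chi, hp, hz]
    have e2 : ν = (· - 1) ∘ (ν + chi S) := funext fun p => by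
      by_cases hp : p ∈ S <;> simp [chi, hp, hz]
    generalize ν + chi S = ω at e1 e2
    rw [e1, e2, hLf]
    simp only [xt_comp (φ := (min · 1)) rfl, xt_comp (φ := (· - 1)) rfl, ← sum_add_distrib]
    refine sum_congr rfl fun i _ => ?_
    rw [mu'_comp hθ (fun _ _ h => min_le_min h le_rfl) rfl,
      mu'_comp hθ (fun _ _ h => Nat.sub_le_sub_right h 1) rfl, ← lin_strip]
  have hinv : ∀ S, OrdInv κ S := by
    intro S φ h1 h2 ν _
    simp only [hκ, xt_comp h2, mu'_comp hθ h1.monotone h2, cor_comp h1, Pi.le_def,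
      Function.comp_apply, h1.le_iff_le]
  choose T hT1 hT2 hT3 using fun S => gen_terms hL S κ (hinv S)
  refine ⟨∑ S, T S, fun t ht => ?_, ?_, fun q hq => ?_⟩
  · obtain ⟨S, -, ht⟩ := Multiset.mem_sum.1 ht
    exact ⟨(hT1 S t ht).1.trans (card_le_univ S), (hT1 S t ht).2⟩
  · obtain ⟨ν, h1, h2, h3⟩ := exists_generic (c := c) hθ
    obtain ⟨t, ht, h4⟩ := hT2 univ ⟨ν, h1, h2.injOn, by simp only [hκ, if_pos h3]; simp⟩
    exact ⟨t, Multiset.mem_sum.2 ⟨_, mem_univ _, ht⟩, h4⟩
  · have hq' : (q : ℚ) ≠ 0 := Nat.cast_ne_zero.2 hq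
    have h6 := map_sum (Multiset.sumAddMonoidHom.comp (Multiset.mapAddMonoidHom
      (term (q : LaurentSeries ℚ) YY))) T univ
    simp only [AddMonoidHom.comp_apply, Multiset.coe_mapAddMonoidHom,
      Multiset.coe_sumAddMonoidHom] at h6
    have h7 := fun S => (hT3 S q).resolve_right hq'
    simp only [map_natCast] at h7
    rw [h6, ← sum_congr rfl fun S _ => h7 S, ← map_sum]
    congr 1
    ext n
    simp only [map_sum, gen, PowerSeries.coeff_mk, sum_fiberwise_eq_sum_filter, mem_univ,
      filter_true, Nat.cast_sum]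
    refine sum_congr rfl fun ν _ => ?_
    simp only [hκ, hLf]
    split_ifs with h
    · rw [← sum_congr rfl fun i hi => ex_add_cor (h i (mem_range.1 hi)), sum_add_distrib, pow_add,
        Option.elim_some, zpow_neg, zpow_natCast, Nat.cast_pow]
      field_simp
    · simp

end Pool.Agent.P.MP_8598be_al
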