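import Pool.Agent.P.MP_8598be_al.Cell

/-!
Counting chains of lattices in a tower in which the type of each lower bound is determined by the
type of the previous lattice.
-/

namespace Pool.Agent.P.MP_8598be_al

open Finset
open scoped Classical

variable {R : Type} [CommRing R] {L : Type} [AddCommGroup L] [Module R L]

/-- The diagonal lattice with respect to a trivialisation of a submodule. -/
def DL (ϖ : R) {F : Submodule R L} {ι : Type} (g : F ≃ₗ[R] (ι → R)) (ν : ι → ℕ) :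
    Submodule R L := (D ϖ ν).map (F.subtype ∘ₗ g.symm.toLinearMap)

lemma DL_le {ϖ : R} {F : Submodule R L} {ι : Type} (g : F ≃ₗ[R] (ι → R)) (ν : ι → ℕ) :
    DL ϖ g ν ≤ F := by
  rintro _ ⟨y, -, rfl⟩
  exact (g.symm y).2

lemma mem_DL {ϖ : R} {F : Submodule R L} {ι : Type} {g : F ≃ₗ[R] (ι → R)} {ν : ι → ℕ} {x : F} :
    x.1 ∈ DL ϖ g ν ↔ g x ∈ D ϖ ν := by
  constructor
  · rintro ⟨y, hy, h⟩
    obtain rfl : g.symm y = x := Subtype.ext h
    simpa using hy
  · exact fun h => ⟨g x, h, by simp⟩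

lemma eq_DL {ϖ : R} {F : Submodule R L} {ι : Type} {g : F ≃ₗ[R] (ι → R)} {ν : ι → ℕ}
    {Λ : Submodule R L} (h1 : Λ ≤ F) (h2 : ∀ x : F, x.1 ∈ Λ ↔ g x ∈ D ϖ ν) : Λ = DL ϖ g ν :=
  le_antisymm (fun x hx => (mem_DL (x := ⟨x, h1 hx⟩)).2 ((h2 ⟨x, h1 hx⟩).1 hx))
    fun x hx => (h2 ⟨x, DL_le g ν hx⟩).2 ((mem_DL (x := ⟨x, DL_le g ν hx⟩)).1 hx)

lemma card_eq_sum_fibers {A B : Type} (f : A → B) (T : Finset B) (h : ∀ a, f a ∈ T)
    (hfin : ∀ b ∈ T, Finite {a // f a = b}) :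
    Nat.card A = ∑ b ∈ T, Nat.card {a // f a = b} := by
  have e : ∀ b : T, {a // (⟨f a, h a⟩ : T) = b} ≃ {a // f a = b} := fun b =>
    Equiv.subtypeEquivRight fun a => Subtype.ext_iff
  have : ∀ b : T, Finite {a // (⟨f a, h a⟩ : T) = b} := fun b =>
    have := hfin b b.2; Finite.of_equiv _ (e b).symm
  rw [← Nat.card_congr (Equiv.sigmaFiberEquiv fun a => (⟨f a, h a⟩ : T)), Nat.card_sigma,
    ← sum_coe_sort T]
  exact sum_congr rfl fun b _ => Nat.card_congr (e b)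

variable [IsDomain R] [IsDiscreteValuationRing R] {ϖ : R} {q : ℕ}

lemma relIndex_DL (hϖ : Irreducible ϖ) (hq : Nat.card (R ⧸ Ideal.span {ϖ}) = q)
    {F : Submodule R L} {ι : Type} [Fintype ι] (g : F ≃ₗ[R] (ι → R)) (ν : ι → ℕ) :
    (DL ϖ g ν).toAddSubgroup.relIndex F.toAddSubgroup = q ^ ∑ j, ν j :=
  index_of_iff (Λ := (DL ϖ g ν).comap F.subtype) hϖ hq g fun _ => mem_DL

lemma cellL (hϖ : Irreducible ϖ) (hq : Nat.card (R ⧸ Ideal.span {ϖ}) = q) (hq0 : q ≠ 0)
    {F : Submodule R L} {ι : Type} [Fintype ι] [LinearOrder ι] (g₀ : F ≃ₗ[R] (ι → R))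
    (μ : ι → ℕ) : ∃ τ : Submodule R L → ι → ℕ,
      (∀ Λ, DL ϖ g₀ μ ≤ Λ → Λ ≤ F → τ Λ ≤ μ ∧ ∃ g : F ≃ₗ[R] (ι → R), Λ = DL ϖ g (τ Λ)) ∧
      ∀ ν, ν ≤ μ → Nat.card {Λ // (DL ϖ g₀ μ ≤ Λ ∧ Λ ≤ F) ∧ τ Λ = ν} = q ^ ex μ ν := by
  obtain ⟨τ, h1, h2⟩ := cell hϖ hq hq0 _ μ rfl _ ∅ rfl (fun _ h => absurd h (notMem_empty _))
    fun _ h => absurd h (notMem_empty _)
  set φ : (ι → R) →ₗ[R] L := F.subtype ∘ₗ g₀.symm.toLinearMap with hφ
  have hinj : Function.Injective φ := F.subtype_injective.comp g₀.symm.injective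
  have htop : ∀ Λ : Submodule R (ι → R), Λ ≤ D ϖ (ind ∅) := fun Λ x _ =>
    mem_D.2 fun j => by simp [ind]
  refine ⟨fun Λ => τ (Λ.comap φ), fun Λ h3 h4 => ?_, fun ν hν => ?_⟩
  · obtain ⟨-, h5, g, -, h6⟩ := h1 (Λ.comap φ) (Submodule.map_le_iff_le_comap.1 h3) (htop _)
    refine ⟨h5, g₀.trans g, eq_DL h4 fun x => ?_⟩
    rw [LinearEquiv.trans_apply, ← h6]
    simp [hφ]
  · rw [← h2 ν (fun j => by simp [ind]) hν]
    exact Nat.card_congr
      { toFun := fun Λ => ⟨Λ.1.comap φ, ⟨Submodule.map_le_iff_le_comap.1 Λ.2.1.1, htop _⟩, Λ.2.2⟩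
        invFun := fun Λ => ⟨Λ.1.map φ, ⟨Submodule.map_mono Λ.2.1.1, by
          rintro _ ⟨y, -, rfl⟩
          exact (g₀.symm y).2⟩, by
          beta_reduce
          rw [Submodule.comap_map_eq_of_injective hinj, Λ.2.2]⟩
        left_inv := fun Λ => Subtype.ext (Submodule.map_comap_eq_of_le fun x hx =>
          ⟨g₀ ⟨x, Λ.2.1.2 hx⟩, by simp [hφ]⟩)
        right_inv := fun Λ => Subtype.ext (Submodule.comap_map_eq_of_injective hinj _) }

/-- Lower bounds for the members of a chain. -/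
def low (U : Submodule R L) (br : Submodule R L → Submodule R L) (Λ : ℕ → Submodule R L) :
    ℕ → Submodule R L
  | 0 => U
  | i + 1 => br (Λ i)

/-- Upper bounds for the types of the members of a chain. -/
def mu {k : ℕ → ℕ} (N : ℕ) (θ : ∀ i, (Fin (k i) → ℕ) → Fin (k (i + 1)) → ℕ)
    (ν : ∀ i, Fin (k i) → ℕ) : ∀ i, Fin (k i) → ℕ
  | 0 => fun _ => N
  | i + 1 => θ i (ν i)

/-- Chains of length `c`. -/
def Chain (F : ℕ → Submodule R L) (U : Submodule R L) (br : Submodule R L → Submodule R L)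
    (c : ℕ) (Λ : ℕ → Submodule R L) : Prop :=
  (∀ i, c ≤ i → Λ i = F i) ∧ ∀ i, i < c → low U br Λ i ≤ Λ i ∧ Λ i ≤ F i

omit [IsDomain R] [IsDiscreteValuationRing R] in
lemma low_update {U : Submodule R L} {br : Submodule R L → Submodule R L}
    (Λ : ℕ → Submodule R L) {c i : ℕ} (h : i ≤ c) (A : Submodule R L) :
    low U br (Function.update Λ c A) i = low U br Λ i := by
  cases i with
  | zero => rfl
  | succ i => simp only [low, Function.update_of_ne (Nat.ne_of_lt h)]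

lemma mu_update {k : ℕ → ℕ} {N : ℕ} {θ : ∀ i, (Fin (k i) → ℕ) → Fin (k (i + 1)) → ℕ}
    (ν : ∀ i, Fin (k i) → ℕ) {c i : ℕ} (h : i ≤ c) (a : Fin (k c) → ℕ) :
    mu N θ (Function.update ν c a) i = mu N θ ν i := by
  cases i with
  | zero => rfl
  | succ i => simp only [mu, Function.update_of_ne (Nat.ne_of_lt h)]

theorem tower (hϖ : Irreducible ϖ) (hq : Nat.card (R ⧸ Ideal.span {ϖ}) = q) (hq0 : q ≠ 0)
    {F : ℕ → Submodule R L} {br : Submodule R L → Submodule R L} {k : ℕ → ℕ}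
    {θ : ∀ i, (Fin (k i) → ℕ) → Fin (k (i + 1)) → ℕ} (g₀ : F 0 ≃ₗ[R] (Fin (k 0) → R)) (N : ℕ)
    (c : ℕ) (H : ∀ i, i + 1 < c → ∀ (g : F i ≃ₗ[R] (Fin (k i) → R)) ν,
      ∃ g' : F (i + 1) ≃ₗ[R] (Fin (k (i + 1)) → R), br (DL ϖ g ν) = DL ϖ g' (θ i ν)) :
    ∃ τ : (ℕ → Submodule R L) → ∀ i, Fin (k i) → ℕ,
      (∀ Λ, Chain F (DL ϖ g₀ fun _ => N) br c Λ → (∀ i, c ≤ i → τ Λ i = 0) ∧
        ∀ i, i < c → τ Λ i ≤ mu N θ (τ Λ) i ∧
          ∃ g : F i ≃ₗ[R] (Fin (k i) → R), Λ i = DL ϖ g (τ Λ i)) ∧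
      ∀ ν, (∀ i, c ≤ i → ν i = 0) → (∀ i, i < c → ν i ≤ mu N θ ν i) →
        Nat.card {Λ // Chain F (DL ϖ g₀ fun _ => N) br c Λ ∧ τ Λ = ν} =
          q ^ ∑ i ∈ range c, ex (mu N θ ν i) (ν i) := by
  induction c with
  | zero =>
    refine ⟨fun _ => 0, fun Λ _ => ⟨fun _ _ => rfl, fun i h => absurd h (Nat.not_lt_zero i)⟩,
      fun ν h _ => ?_⟩
    rw [range_zero, sum_empty, pow_zero, Nat.card_eq_one_iff_unique]
    exact ⟨⟨fun a b => Subtype.ext (funext fun i => (a.2.1.1 i zero_le).trans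
      (b.2.1.1 i zero_le).symm)⟩, ⟨F, ⟨fun _ _ => rfl, fun i h => absurd h (Nat.not_lt_zero i)⟩,
        funext fun i => (h i zero_le).symm⟩⟩
  | succ c ih =>
    obtain ⟨τ, h1, h2⟩ := ih fun i hi => H i (hi.trans (Nat.lt_succ_self c))
    set U := DL ϖ g₀ fun _ => N with hU
    have hσ : ∀ Λ : ℕ → Submodule R L, ∃ σ : Submodule R L → Fin (k c) → ℕ, Chain F U br c Λ →
        (∀ A, low U br Λ c ≤ A → A ≤ F c → σ A ≤ mu N θ (τ Λ) c ∧
          ∃ g : F c ≃ₗ[R] (Fin (k c) → R), A = DL ϖ g (σ A)) ∧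
        ∀ a, a ≤ mu N θ (τ Λ) c → Nat.card {A // (low U br Λ c ≤ A ∧ A ≤ F c) ∧ σ A = a} =
          q ^ ex (mu N θ (τ Λ) c) a := by
      intro Λ
      by_cases hΛ : Chain F U br c Λ
      · obtain ⟨g', hg'⟩ : ∃ g' : F c ≃ₗ[R] (Fin (k c) → R),
            low U br Λ c = DL ϖ g' (mu N θ (τ Λ) c) := by
          cases c with
          | zero => exact ⟨g₀, rfl⟩
          | succ c =>
            obtain ⟨g, hg⟩ := ((h1 Λ hΛ).2 c (Nat.lt_succ_self c)).2
            obtain ⟨g', hg'⟩ := H c (Nat.lt_succ_self _) g (τ Λ c)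
            exact ⟨g', (congrArg br hg).trans hg'⟩
        rw [hg']
        exact (cellL hϖ hq hq0 g' _).imp fun σ h _ => h
      · exact ⟨fun _ => 0, fun h => absurd h hΛ⟩
    choose σ hσ using hσ
    have hres : ∀ Λ, Chain F U br (c + 1) Λ → Chain F U br c (Function.update Λ c (F c)) := by
      refine fun Λ hΛ => ⟨fun i hi => ?_, fun i hi => ?_⟩
      · rcases hi.eq_or_lt with rfl | hi
        · simp
        · rw [Function.update_of_ne hi.ne', hΛ.1 i hi]
      · rw [low_update _ hi.le, Function.update_of_ne hi.ne]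
        exact hΛ.2 i (hi.trans (Nat.lt_succ_self c))
    refine ⟨fun Λ => Function.update (τ (Function.update Λ c (F c))) c
      (σ (Function.update Λ c (F c)) (Λ c)), fun Λ hΛ => ⟨fun i hi => ?_, fun i hi => ?_⟩,
      fun ν h3 h4 => ?_⟩
    · beta_reduce
      rw [Function.update_of_ne (Nat.ne_of_gt hi)]
      exact (h1 _ (hres Λ hΛ)).1 i (Nat.le_of_succ_le hi)
    · beta_reduce
      rw [mu_update _ (Nat.le_of_lt_succ hi)]
      rcases (Nat.le_of_lt_succ hi).eq_or_lt with rfl | hi'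
      · rw [Function.update_self]
        exact (hσ _ (hres Λ hΛ)).1 _ (low_update Λ le_rfl _ ▸ (hΛ.2 i hi).1) (hΛ.2 i hi).2
      · have := (h1 _ (hres Λ hΛ)).2 i hi'
        rwa [Function.update_of_ne hi'.ne] at this ⊢
    · have h5 := h2 (Function.update ν c 0) (fun i hi => by
        rcases hi.eq_or_lt with rfl | hi
        · simp
        · rw [Function.update_of_ne hi.ne', h3 i hi]) fun i hi => by
          rw [mu_update _ hi.le, Function.update_of_ne hi.ne]
          exact h4 i (hi.trans (Nat.lt_succ_self c))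
      rw [sum_congr rfl fun i hi => by
        rw [mu_update _ (mem_range.1 hi).le, Function.update_of_ne (mem_range.1 hi).ne]] at h5
      rw [sum_range_succ, pow_add]
      refine card_of_fibers (fun Λ => ⟨Function.update Λ.1 c (F c), hres _ Λ.2.1, by
        have := congrArg (fun ν => Function.update ν c 0) Λ.2.2
        simp only [Function.update_idem] at this
        rw [← this, eq_comm, Function.update_eq_self_iff]
        exact ((h1 _ (hres _ Λ.2.1)).1 c le_rfl).symm⟩)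
        (pow_ne_zero _ hq0) (pow_ne_zero _ hq0) h5 ?_
      · rintro ⟨Λ₀, h6, h7⟩
        have h8 := (hσ Λ₀ h6).2 (ν c)
        rw [h7, mu_update _ le_rfl] at h8
        rw [← h8 (h4 c (Nat.lt_succ_self c))]
        have h9 : ∀ A, Function.update (Function.update Λ₀ c A) c (F c) = Λ₀ := fun A => by
          rw [Function.update_idem, Function.update_eq_self_iff, h6.1 c le_rfl]
        exact Nat.card_congr
          { toFun := fun Λ => ⟨Λ.1.1 c, by
              obtain ⟨⟨Λ, h10, h11⟩, h12⟩ := Λ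
              obtain rfl : Function.update Λ c (F c) = Λ₀ := congrArg Subtype.val h12
              refine ⟨⟨low_update Λ le_rfl _ ▸ (h10.2 c (Nat.lt_succ_self c)).1,
                (h10.2 c (Nat.lt_succ_self c)).2⟩, ?_⟩
              simpa using congrFun h11 c⟩
            invFun := fun A => ⟨⟨Function.update Λ₀ c A.1, ⟨fun i hi => by
              rw [Function.update_of_ne (Nat.ne_of_gt hi), h6.1 i (Nat.le_of_succ_le hi)],
              fun i hi => by
                rw [low_update _ (Nat.le_of_lt_succ hi)]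
                rcases (Nat.le_of_lt_succ hi).eq_or_lt with rfl | hi'
                · rw [Function.update_self]; exact A.2.1
                · rw [Function.update_of_ne hi'.ne]; exact h6.2 i hi'⟩, by
                beta_reduce
                rw [h9, Function.update_self, A.2.2, h7, Function.update_idem,
                  Function.update_eq_self]⟩, Subtype.ext (h9 _)⟩
            left_inv := fun Λ => Subtype.ext (Subtype.ext (by
              obtain ⟨⟨Λ, h10, h11⟩, h12⟩ := Λ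
              obtain rfl : Function.update Λ c (F c) = Λ₀ := congrArg Subtype.val h12
              simp))
            right_inv := fun A => Subtype.ext (by simp) }

end Pool.Agent.P.MP_8598be_al
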